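import Pool.Agent.Helper74_SE.Tower

/-!
# Cyclic edge connectivity of vertex transitive cubic graphs

A connected vertex transitive cubic graph of girth at least `k` (at least `6`) is cyclically
`k`-edge-connected (Nedela, Skoviera).  Atoms are disjoint, so they are blocks of imprimitivity.
-/

namespace Pool.Agent.Helper74_SE

open Finset

set_option linter.unusedSectionVars false

variable {V : Type} [Fintype V] [DecidableEq V] (X : Col V)

/-- The number of darts from `S` to `T`. -/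
def Col.e (S T : Finset V) : ℕ := ∑ v ∈ S, #{i : ZMod 3 | X.τ i v ∈ T}

/-- The size of the edge cut of `S`. -/
def Col.δ (S : Finset V) : ℕ := X.e S Sᶜ

/-- A nonempty set in which every vertex has two neighbours. -/
def Col.Core (Z : Finset V) : Prop := Z.Nonempty ∧ ∀ v ∈ Z, 2 ≤ #{i : ZMod 3 | X.τ i v ∈ Z}

/-- A set that contains a core. -/
def Col.Cy (S : Finset V) : Prop := ∃ Z ⊆ S, X.Core Z

theorem Col.e_union {S S' : Finset V} (h : Disjoint S S') (T : Finset V) :
    X.e (S ∪ S') T = X.e S T + X.e S' T := sum_union h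

theorem Col.e_union_right {T T' : Finset V} (h : Disjoint T T') (S : Finset V) :
    X.e S (T ∪ T') = X.e S T + X.e S T' := by
  unfold Col.e
  rw [← sum_add_distrib]
  refine sum_congr rfl (fun v _ => ?_)
  rw [← card_union_of_disjoint]
  · congr 1
    ext i
    simp
  · rw [disjoint_filter]
    intro i _ h1 h2
    exact (disjoint_left.1 h h1) h2

theorem Col.e_comm (S T : Finset V) : X.e S T = X.e T S := by
  have h : ∀ S T : Finset V, X.e S T =
      #{p : V × ZMod 3 | p.1 ∈ S ∧ X.τ p.2 p.1 ∈ T} := by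
    intro S T
    unfold Col.e
    rw [← card_sigma]
    refine card_bij (fun p _ => (p.1, p.2)) ?_ ?_ ?_
    · rintro ⟨v, i⟩ h
      simpa using h
    · rintro ⟨v, i⟩ _ ⟨w, j⟩ _ h
      simp only [Prod.mk.injEq] at h
      obtain ⟨rfl, rfl⟩ := h
      rfl
    · rintro ⟨v, i⟩ h
      exact ⟨⟨v, i⟩, by simpa using h, rfl⟩
  rw [h, h]
  refine card_bij (fun p _ => (X.τ p.2 p.1, p.2)) ?_ ?_ ?_
  · rintro ⟨v, i⟩ h
    simp only [mem_filter, mem_univ, true_and] at h ⊢
    exact ⟨h.2, by rw [X.inv]; exact h.1⟩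
  · rintro ⟨v, i⟩ _ ⟨w, j⟩ _ h
    simp only [Prod.mk.injEq] at h
    obtain ⟨h1, rfl⟩ := h
    have := congrArg (X.τ i) h1
    rw [X.inv, X.inv] at this
    rw [this]
  · rintro ⟨v, i⟩ h
    simp only [mem_filter, mem_univ, true_and] at h
    exact ⟨(X.τ i v, i), by simp only [mem_filter, mem_univ, true_and]; exact ⟨h.2, by rw [X.inv]; exact h.1⟩,
      by simp only [X.inv]⟩

theorem Col.e_univ (S : Finset V) : X.e S univ = 3 * #S := by
  unfold Col.e
  simp only [mem_univ, filter_true, card_univ, ZMod.card, sum_const, smul_eq_mul]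
  ring

theorem Col.e_mono {S S' T T' : Finset V} (h : S ⊆ S') (h' : T ⊆ T') : X.e S T ≤ X.e S' T' := by
  unfold Col.e
  refine (sum_le_sum_of_subset h).trans (sum_le_sum (fun v _ => card_le_card ?_))
  intro i hi
  simp only [mem_filter, mem_univ, true_and] at hi ⊢
  exact h' hi

theorem Col.δ_compl (S : Finset V) : X.δ Sᶜ = X.δ S := by
  unfold Col.δ
  rw [compl_compl, X.e_comm]

/-- Removing a subset. -/
theorem Col.δ_sdiff {A P : Finset V} (h : P ⊆ A) :
    X.δ (A \ P) + X.e P Aᶜ = X.δ A + X.e P (A \ P) := by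
  have h1 : (A \ P)ᶜ = Aᶜ ∪ P := by
    ext v
    simp only [mem_compl, mem_sdiff, mem_union]
    tauto
  have h2 : Disjoint Aᶜ P := by
    rw [disjoint_left]
    intro v hv hv'
    exact (mem_compl.1 hv) (h hv')
  have h3 : A = (A \ P) ∪ P := by
    rw [sdiff_union_of_subset h]
  have h4 : X.δ A = X.e (A \ P) Aᶜ + X.e P Aᶜ := by
    unfold Col.δ
    conv_lhs => rw [show X.e A Aᶜ = X.e ((A \ P) ∪ P) Aᶜ by rw [← h3]]
    exact X.e_union sdiff_disjoint _
  unfold Col.δ at h4 ⊢
  rw [h1, X.e_union_right h2, h4, X.e_comm (A \ P) P]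
  ring

theorem Col.submod (A B : Finset V) : X.δ (A ∩ B) + X.δ (A ∪ B) ≤ X.δ A + X.δ B := by
  -- four regions
  set R1 := A ∩ B
  set R2 := A \ B
  set R3 := B \ A
  set R4 := (A ∪ B)ᶜ
  have hA : A = R1 ∪ R2 := by ext v; simp only [R1, R2, mem_union, mem_inter, mem_sdiff]; tauto
  have hB : B = R1 ∪ R3 := by ext v; simp only [R1, R3, mem_union, mem_inter, mem_sdiff]; tauto
  have hAc : Aᶜ = R3 ∪ R4 := by
    ext v; simp only [R3, R4, mem_union, mem_compl, mem_sdiff]; tauto
  have hBc : Bᶜ = R2 ∪ R4 := by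
    ext v; simp only [R2, R4, mem_union, mem_compl, mem_sdiff]; tauto
  have hI : R1ᶜ = R2 ∪ R3 ∪ R4 := by
    ext v; simp only [R1, R2, R3, R4, mem_union, mem_compl, mem_sdiff, mem_inter]; tauto
  have hU : A ∪ B = R1 ∪ R2 ∪ R3 := by
    ext v; simp only [R1, R2, R3, mem_union, mem_sdiff, mem_inter]; tauto
  have d12 : Disjoint R1 R2 := by
    rw [disjoint_left]; intro v; simp only [R1, R2, mem_sdiff, mem_inter]; tauto
  have d13 : Disjoint R1 R3 := by
    rw [disjoint_left]; intro v; simp only [R1, R3, mem_sdiff, mem_inter]; tauto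
  have d23 : Disjoint R2 R3 := by
    rw [disjoint_left]; intro v; simp only [R2, R3, mem_sdiff]; tauto
  have d24 : Disjoint R2 R4 := by
    rw [disjoint_left]; intro v; simp only [R2, R4, mem_sdiff, mem_compl, mem_union]; tauto
  have d34 : Disjoint R3 R4 := by
    rw [disjoint_left]; intro v; simp only [R3, R4, mem_sdiff, mem_compl, mem_union]; tauto
  have d123 : Disjoint (R1 ∪ R2) R3 := by
    rw [disjoint_union_left]; exact ⟨d13, d23⟩
  have d234 : Disjoint (R2 ∪ R3) R4 := by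
    rw [disjoint_union_left]; exact ⟨d24, d34⟩
  have e1 : X.δ R1 = X.e R1 R2 + X.e R1 R3 + X.e R1 R4 := by
    unfold Col.δ
    rw [hI, X.e_union_right d234, X.e_union_right d23]
  have e2 : X.δ (A ∪ B) = X.e R1 R4 + X.e R2 R4 + X.e R3 R4 := by
    show X.e (A ∪ B) R4 = _
    rw [hU, X.e_union d123, X.e_union d12]
  have e3 : X.δ A = X.e R1 R3 + X.e R1 R4 + (X.e R2 R3 + X.e R2 R4) := by
    show X.e A Aᶜ = _
    rw [hAc, X.e_union_right d34]
    conv_lhs => rw [hA]
    rw [X.e_union d12, X.e_union d12]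
    ring
  have e4 : X.δ B = X.e R1 R2 + X.e R1 R4 + (X.e R3 R2 + X.e R3 R4) := by
    show X.e B Bᶜ = _
    rw [hBc, X.e_union_right d24]
    conv_lhs => rw [hB]
    rw [X.e_union d13, X.e_union d13]
    ring
  omega

theorem Col.posimod (A B : Finset V) : X.δ (A \ B) + X.δ (B \ A) ≤ X.δ A + X.δ B := by
  have h := X.submod A Bᶜ
  rw [X.δ_compl B] at h
  have h1 : A ∩ Bᶜ = A \ B := by ext v; simp
  have h2 : A ∪ Bᶜ = (B \ A)ᶜ := by ext v; simp only [mem_union, mem_compl, mem_sdiff]; tauto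
  rwa [h1, h2, X.δ_compl] at h

end Pool.Agent.Helper74_SE
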