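import Pool.Agent.Helper74_SE.Atom

/-!
# Cyclic edge connectivity of vertex transitive cubic graphs, continued
-/

namespace Pool.Agent.Helper74_SE

open Finset

set_option linter.unusedSectionVars false

variable {V : Type} [Fintype V] [DecidableEq V] {X : Col V} {k : ℕ}

theorem Col.e_single (X : Col V) (v : V) (T : Finset V) :
    X.e {v} T = #{i : ZMod 3 | X.τ i v ∈ T} := by
  unfold Col.e
  rw [sum_singleton]

theorem Col.e_eq_sum (X : Col V) (S T : Finset V) : X.e S T = ∑ v ∈ S, X.e {v} T := by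
  simp only [X.e_single]
  rfl

theorem Col.e_add_compl (X : Col V) (S T : Finset V) : X.e S T + X.e S Tᶜ = 3 * #S := by
  rw [← X.e_union_right disjoint_compl_right, union_compl, X.e_univ]

theorem Col.Cy.mono {S T : Finset V} (h : X.Cy S) (hST : S ⊆ T) : X.Cy T := by
  obtain ⟨Z, hZ, hc⟩ := h
  exact ⟨Z, hZ.trans hST, hc⟩

theorem Col.e_single_le (X : Col V) (v : V) (T : Finset V) : X.e {v} T ≤ 3 := by
  have := X.e_add_compl {v} T
  rw [card_singleton] at this
  omega

/-- Sets without a core have a large boundary. -/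
theorem Col.Girth.acyc (hX : X.Girth k) (hk : 3 ≤ k) (S : Finset V) :
    S.Nonempty → ¬ X.Cy S → #S + 2 ≤ X.δ S := by
  induction S using Finset.strongInduction with
  | H S ih =>
    intro hne hcy
    have hnc : ¬ X.Core S := fun h => hcy ⟨S, Subset.rfl, h⟩
    have : ∃ v ∈ S, #{i : ZMod 3 | X.τ i v ∈ S} ≤ 1 := by
      by_contra hcon
      push Not at hcon
      exact hnc ⟨hne, fun v hv => hcon v hv⟩
    obtain ⟨v, hv, hv1⟩ := this
    have hsub : {v} ⊆ S := singleton_subset_iff.2 hv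
    have h1 := X.δ_sdiff hsub
    have h2 : X.e {v} S ≤ 1 := by rw [X.e_single]; exact hv1
    have h3 := X.e_add_compl {v} S
    rw [card_singleton] at h3
    have hcard : #(S \ {v}) = #S - 1 := by
      rw [card_sdiff_of_subset hsub, card_singleton]
    have hpos : 0 < #S := hne.card_pos
    by_cases hS : (S \ {v}).Nonempty
    · have h4 := ih (S \ {v}) (sdiff_ssubset hsub (singleton_nonempty v)) hS
        (fun h => hcy (h.mono sdiff_subset))
      have h5 : X.e {v} (S \ {v}) ≤ X.e {v} S := X.e_mono Subset.rfl sdiff_subset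
      omega
    · rw [not_nonempty_iff_eq_empty] at hS
      have hSv : S = {v} := by
        apply subset_antisymm _ hsub
        rwa [← sdiff_eq_empty_iff_subset]
      have h6 : X.e {v} S = 0 := by
        rw [hSv, X.e_single, card_eq_zero, filter_eq_empty_iff]
        intro i _ hi
        exact hX.ne_self (by omega) i v (mem_singleton.1 hi)
      rw [hS] at h1
      have h7 : X.e {v} (∅ : Finset V) = 0 := by
        rw [X.e_single]; simp
      have h8 : #S = 1 := by rw [hSv, card_singleton]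
      omega

/-- Cores are large. -/
theorem Col.Girth.core_card (hX : X.Girth k) {Z : Finset V} (hZ : X.Core Z) : k ≤ #Z := by
  classical
  let St := {p : V × ZMod 3 // p.1 ∈ Z ∧ X.τ p.2 p.1 ∈ Z}
  have hnext : ∀ p : St, ∃ q : St, q.1.1 = X.τ p.1.2 p.1.1 ∧ q.1.2 ≠ p.1.2 := by
    rintro ⟨⟨v, i⟩, hv, hvi⟩
    have h2 := hZ.2 (X.τ i v) hvi
    obtain ⟨j, hj, hji⟩ := exists_mem_ne (show 1 < #{j : ZMod 3 | X.τ j (X.τ i v) ∈ Z} by omega) i
    simp only [mem_filter, mem_univ, true_and] at hj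
    exact ⟨⟨(X.τ i v, j), hvi, hj⟩, rfl, hji⟩
  have hstart : Nonempty St := by
    obtain ⟨v, hv⟩ := hZ.1
    have h2 := hZ.2 v hv
    obtain ⟨j, hj⟩ := card_pos.1 (show 0 < #{j : ZMod 3 | X.τ j v ∈ Z} by omega)
    simp only [mem_filter, mem_univ, true_and] at hj
    exact ⟨⟨(v, j), hv, hj⟩⟩
  choose nx hnx using hnext
  obtain ⟨p0⟩ := hstart
  let f : ℕ → St := fun n => nx^[n] p0
  have hf : ∀ n, f (n + 1) = nx (f n) := fun n => Function.iterate_succ_apply' nx n p0
  have hNB : ∀ b, X.NB b (fun n => (f n).1.1) (fun n => (f n).1.2) := by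
    intro b
    refine ⟨fun n _ => ?_, fun n _ => ?_⟩
    · simp only [hf]; exact (hnx (f n)).1
    · simp only [hf]; exact (hnx (f n)).2
  obtain ⟨a, ha, b, hb, hab, heq⟩ := exists_ne_map_eq_of_card_lt_of_maps_to
    (s := range (#Z + 1)) (t := Z) (by rw [card_range]; omega) (f := fun n => (f n).1.1)
    (fun n _ => (f n).2.1)
  rw [mem_range] at ha hb
  have key : ∀ a b, a < b → b < #Z + 1 → (f a).1.1 = (f b).1.1 → k ≤ #Z := by
    intro a b hab hb heq
    have := hX (b - a) _ _ (by omega) ((hNB b).shift (i := a) (m := b - a) (by omega))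
      (show (f (a + (b - a))).1.1 = (f (a + 0)).1.1 by
        rw [show a + (b - a) = b by omega]; exact heq.symm)
    omega
  rcases Nat.lt_or_gt_of_ne hab with h | h
  · exact key a b h hb heq
  · exact key b a h ha heq.symm

theorem Col.Girth.cy_card (hX : X.Girth k) {S : Finset V} (hS : X.Cy S) : k ≤ #S := by
  obtain ⟨Z, hZ, hc⟩ := hS
  exact (hX.core_card hc).trans (card_le_card hZ)

/-- An atom: a smallest set of minimum cut among the sets with cores on both sides. -/
structure Col.Atom (X : Col V) (A : Finset V) : Prop where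
  cy : X.Cy A
  cyc : X.Cy Aᶜ
  m1 : ∀ S, X.Cy S → X.Cy Sᶜ → X.δ A ≤ X.δ S
  m2 : ∀ S, X.Cy S → X.Cy Sᶜ → X.δ S = X.δ A → #A ≤ #S

section AtomFacts

variable {A : Finset V} (hA : X.Atom A) (hX : X.Girth k) (hk : 6 ≤ k) (hlt : X.δ A < k)

include hA hX hk hlt

theorem Col.Atom.card_ge : k ≤ #A := hX.cy_card hA.cy

/-- Removing a part which does not increase the cut is impossible, except for small atoms. -/
theorem Col.Atom.remove {P : Finset V} (hP : P ⊆ A) (hne : P.Nonempty)
    (he : X.e P (A \ P) ≤ X.e P Aᶜ) (hPA : #P < #A) : #A + 2 ≤ X.δ A + #P := by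
  have h1 := X.δ_sdiff hP
  have hcard : #(A \ P) = #A - #P := card_sdiff_of_subset hP
  have hpos : 0 < #P := hne.card_pos
  have hc : X.Cy (A \ P)ᶜ := hA.cyc.mono (compl_subset_compl.2 sdiff_subset)
  by_cases h2 : X.Cy (A \ P)
  · have h3 := hA.m1 _ h2 hc
    have h4 := hA.m2 _ h2 hc (by omega)
    omega
  · have h5 : (A \ P).Nonempty := by
      rw [← card_pos]; omega
    have h6 := hX.acyc (by omega) _ h5 h2
    omega

theorem Col.Atom.out_le {v : V} (hv : v ∈ A) : X.e {v} Aᶜ ≤ 1 := by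
  by_contra hcon
  push Not at hcon
  have h1 := X.e_add_compl {v} A
  rw [card_singleton] at h1
  have hsub : {v} ⊆ A := singleton_subset_iff.2 hv
  have h2 := X.δ_sdiff hsub
  have h3 : X.e {v} (A \ {v}) ≤ X.e {v} A := X.e_mono Subset.rfl sdiff_subset
  have h4 : X.Cy (A \ {v}) := by
    obtain ⟨Z, hZ, hc⟩ := hA.cy
    refine ⟨Z, ?_, hc⟩
    intro w hw
    rw [mem_sdiff, mem_singleton]
    refine ⟨hZ hw, ?_⟩
    rintro rfl
    have h5 := hc.2 w hw
    rw [← X.e_single] at h5
    have h6 : X.e {w} Z ≤ X.e {w} A := X.e_mono Subset.rfl hZ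
    omega
  have h5 := hA.m1 _ h4 (hA.cyc.mono (compl_subset_compl.2 sdiff_subset))
  omega

theorem Col.Atom.two {x : V} {j : ZMod 3} (hx : x ∈ A) (hy : X.τ j x ∈ A) (ox : X.e {x} Aᶜ = 1)
    (oy : X.e {X.τ j x} Aᶜ = 1) : False := by
  have hne : x ≠ X.τ j x := (hX.ne_self (by omega) j x).symm
  set y := X.τ j x with hydef
  have hP : ({x} ∪ {y} : Finset V) ⊆ A := by
    rw [union_subset_iff, singleton_subset_iff, singleton_subset_iff]
    exact ⟨hx, hy⟩
  have hd : Disjoint ({x} : Finset V) {y} := by rw [disjoint_singleton]; exact hne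
  have hdA : Disjoint (A \ ({x} ∪ {y})) ({x} ∪ {y}) := sdiff_disjoint
  have hAu : A = (A \ ({x} ∪ {y})) ∪ ({x} ∪ {y}) := (sdiff_union_of_subset hP).symm
  have key : ∀ w z, X.τ j w = z → z ∈ ({x} ∪ {y} : Finset V) → X.e {w} Aᶜ = 1 →
      X.e {w} (A \ ({x} ∪ {y})) ≤ 1 := by
    intro w z hwz hz ow
    have h1 := X.e_add_compl {w} A
    rw [card_singleton] at h1
    have h2 : X.e {w} A = X.e {w} (A \ ({x} ∪ {y})) + X.e {w} ({x} ∪ {y}) := by
      conv_lhs => rw [hAu]
      exact X.e_union_right hdA _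
    have h3 : 0 < X.e {w} ({x} ∪ {y}) := by
      rw [X.e_single, card_pos]
      exact ⟨j, by simp only [mem_filter, mem_univ, true_and]; rw [hwz]; exact hz⟩
    omega
  have h1 := key x y rfl (by simp) ox
  have h2 := key y x (by rw [hydef, X.inv]) (by simp) oy
  have h3 := hA.card_ge hX hk hlt
  have hc2 : #({x} ∪ {y} : Finset V) = 2 := by
    rw [card_union_of_disjoint hd, card_singleton, card_singleton]
  have h4 := hA.remove hX hk hlt hP ⟨x, by simp⟩
    (by rw [X.e_union hd, X.e_union hd, ox, oy]; omega) (by omega)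
  omega

/-- The vertices of degree two and three of the atom. -/
theorem Col.Atom.counts : #{v ∈ A | X.e {v} Aᶜ = 1} = X.δ A ∧
    #{v ∈ A | X.e {v} Aᶜ = 1} + #{v ∈ A | X.e {v} Aᶜ = 0} = #A ∧
    X.e {v ∈ A | X.e {v} Aᶜ = 0} {v ∈ A | X.e {v} Aᶜ = 1} = 2 * #{v ∈ A | X.e {v} Aᶜ = 1} := by
  have ho := fun v (hv : v ∈ A) => hA.out_le hX hk hlt hv
  have hdis : Disjoint {v ∈ A | X.e {v} Aᶜ = 1} {v ∈ A | X.e {v} Aᶜ = 0} := by
    rw [disjoint_filter]
    intro v _ h1 h2
    omega
  have hun : {v ∈ A | X.e {v} Aᶜ = 1} ∪ {v ∈ A | X.e {v} Aᶜ = 0} = A := by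
    ext v
    simp only [mem_union, mem_filter]
    constructor
    · rintro (h | h) <;> exact h.1
    · intro h
      have := ho v h
      have : X.e {v} Aᶜ = 0 ∨ X.e {v} Aᶜ = 1 := by omega
      tauto
  refine ⟨?_, ?_, ?_⟩
  · unfold Col.δ Col.e
    rw [card_filter]
    refine sum_congr rfl (fun v hv => ?_)
    have h1 := ho v hv
    rw [X.e_single] at h1
    rw [sum_singleton]
    split_ifs with h <;> omega
  · rw [← card_union_of_disjoint hdis, hun]
  · rw [X.e_comm, mul_comm]
    have : ∀ v ∈ ({v ∈ A | X.e {v} Aᶜ = 1} : Finset V),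
        X.e {v} ({v ∈ A | X.e {v} Aᶜ = 0} : Finset V) = 2 := by
      intro v hv
      rw [mem_filter] at hv
      have h1 := X.e_add_compl {v} A
      rw [card_singleton, hv.2] at h1
      have h2 : X.e {v} A = X.e {v} {v ∈ A | X.e {v} Aᶜ = 1} + X.e {v} {v ∈ A | X.e {v} Aᶜ = 0} := by
        rw [← X.e_union_right hdis, hun]
      have h3 : X.e {v} {v ∈ A | X.e {v} Aᶜ = 1} = 0 := by
        rw [X.e_single, card_eq_zero, filter_eq_empty_iff]
        intro i _ hi
        rw [mem_filter] at hi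
        exact hA.two hX hk hlt hv.1 hi.1 hv.2 hi.2
      omega
    rw [X.e_eq_sum, sum_congr rfl this, sum_const, smul_eq_mul]

theorem Col.Atom.three_nb {v : V} (h : ∀ i, X.τ i v ∈ A ∧ X.e {X.τ i v} Aᶜ = 1) (hv : v ∈ A) :
    False := by
  have hge := hA.card_ge hX hk hlt
  set N : Finset V := univ.image (fun i => X.τ i v) with hN
  have hinj : Function.Injective (fun i => X.τ i v) := by
    intro i j hij
    by_contra hne
    exact hX.ne_of_ne (by omega) hne v hij
  have hvN : Disjoint ({v} : Finset V) N := by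
    rw [disjoint_singleton_left, hN, mem_image]
    rintro ⟨i, _, hi⟩
    exact hX.ne_self (by omega) i v hi
  have hNA : N ⊆ A := by
    intro w hw
    rw [hN, mem_image] at hw
    obtain ⟨i, _, rfl⟩ := hw
    exact (h i).1
  have hP : {v} ∪ N ⊆ A := union_subset (singleton_subset_iff.2 hv) hNA
  have hNcard : #N = 3 := by
    rw [hN, card_image_of_injective _ hinj, card_univ, ZMod.card]
  have hPcard : #({v} ∪ N) = 4 := by
    rw [card_union_of_disjoint hvN, card_singleton, hNcard]
  have hov : X.e {v} Aᶜ = 0 := by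
    rw [X.e_single, card_eq_zero, filter_eq_empty_iff]
    intro i _ hi
    exact (mem_compl.1 hi) (h i).1
  have hsumN : ∀ T, X.e N T = ∑ i : ZMod 3, X.e {X.τ i v} T := by
    intro T
    have : X.e N T = ∑ w ∈ N, X.e {w} T := by
      unfold Col.e
      refine sum_congr rfl (fun w _ => ?_)
      rw [sum_singleton]
    rw [this, hN, sum_image (fun i _ j _ hij => hinj hij)]
  have hoN : X.e N Aᶜ = 3 := by
    rw [hsumN, sum_congr rfl (fun i _ => (h i).2), sum_const, card_univ, ZMod.card, smul_eq_mul]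
  have hAu : A = (A \ ({v} ∪ N)) ∪ ({v} ∪ N) := (sdiff_union_of_subset hP).symm
  have hdA : Disjoint (A \ ({v} ∪ N)) ({v} ∪ N) := sdiff_disjoint
  have hiv : X.e {v} (A \ ({v} ∪ N)) = 0 := by
    rw [X.e_single, card_eq_zero, filter_eq_empty_iff]
    intro i _ hi
    rw [mem_sdiff, mem_union, not_or] at hi
    exact hi.2.2 (by rw [hN, mem_image]; exact ⟨i, mem_univ _, rfl⟩)
  have hiN : X.e N (A \ ({v} ∪ N)) ≤ 3 := by
    rw [hsumN]
    have : ∀ i ∈ (univ : Finset (ZMod 3)), X.e {X.τ i v} (A \ ({v} ∪ N)) ≤ 1 := by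
      intro i _
      have h1 := X.e_add_compl {X.τ i v} A
      rw [card_singleton, (h i).2] at h1
      have h2 : X.e {X.τ i v} A = X.e {X.τ i v} (A \ ({v} ∪ N)) + X.e {X.τ i v} ({v} ∪ N) := by
        conv_lhs => rw [hAu]
        exact X.e_union_right hdA _
      have h3 : 0 < X.e {X.τ i v} ({v} ∪ N) := by
        rw [X.e_single, card_pos]
        exact ⟨i, by simp only [mem_filter, mem_univ, true_and, X.inv]; simp⟩
      omega
    refine (sum_le_sum this).trans ?_
    rw [sum_const, card_univ, ZMod.card, smul_eq_mul]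
  have h4 := hA.remove hX hk hlt hP ⟨v, by simp⟩
    (by rw [X.e_union hvN, X.e_union hvN, hov, hoN, hiv]; omega) (by omega)
  obtain ⟨c1, c2, c3⟩ := hA.counts hX hk hlt
  have h5 : X.e {v ∈ A | X.e {v} Aᶜ = 0} {v ∈ A | X.e {v} Aᶜ = 1} ≤
      3 * #{v ∈ A | X.e {v} Aᶜ = 0} := by
    rw [← X.e_univ]
    exact X.e_mono Subset.rfl (subset_univ _)
  omega

/-- Atoms have at least twice as many vertices as their cut has edges. -/
theorem Col.Atom.two_mul_le : 2 * X.δ A ≤ #A := by
  obtain ⟨c1, c2, c3⟩ := hA.counts hX hk hlt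
  have h5 : X.e {v ∈ A | X.e {v} Aᶜ = 0} {v ∈ A | X.e {v} Aᶜ = 1} ≤
      2 * #{v ∈ A | X.e {v} Aᶜ = 0} := by
    have : ∀ v ∈ ({v ∈ A | X.e {v} Aᶜ = 0} : Finset V),
        X.e {v} ({v ∈ A | X.e {v} Aᶜ = 1} : Finset V) ≤ 2 := by
      intro v hv
      rw [mem_filter] at hv
      by_contra hcon
      have h3 := X.e_add_compl {v} ({v ∈ A | X.e {v} Aᶜ = 1} : Finset V)
      rw [card_singleton] at h3
      have h4 : X.e {v} ({v ∈ A | X.e {v} Aᶜ = 1} : Finset V)ᶜ = 0 := by omega
      rw [X.e_single, card_eq_zero, filter_eq_empty_iff] at h4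
      apply hA.three_nb hX hk hlt (v := v) _ hv.1
      intro i
      have h5 := h4 (mem_univ i)
      rw [mem_compl, not_not] at h5
      exact mem_filter.1 h5
    rw [X.e_eq_sum]
    refine (sum_le_sum this).trans ?_
    rw [sum_const, smul_eq_mul, mul_comm]
  omega

/-- Intersecting atoms are equal. -/
theorem Col.Atom.eq {B : Finset V} (_ : X.Cy B) (hBcc : X.Cy Bᶜ) (hδ : X.δ B = X.δ A)
    (hcard : #B = #A) (hAB : (A ∩ B).Nonempty) : A = B := by
  by_contra hne
  have hk3 : 3 ≤ k := by omega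
  have hge := hA.card_ge hX hk hlt
  have htwo := hA.two_mul_le hX hk hlt
  have hsub := X.submod A B
  have hpos := X.posimod A B
  have c1 : #(A ∩ B) + #(A \ B) = #A := card_inter_add_card_sdiff A B
  have c2 : #(A ∩ B) + #(B \ A) = #B := by
    rw [inter_comm]; exact card_inter_add_card_sdiff B A
  have c3 : 0 < #(A \ B) := by
    rw [card_pos, sdiff_nonempty]
    intro h
    exact hne (eq_of_subset_of_card_le h (by omega))
  have c4 : 0 < #(A ∩ B) := card_pos.2 hAB
  have c5 : #(A ∪ B) + #(A ∩ B) = #A + #B := card_union_add_card_inter A B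
  have c6 : #(A ∪ B)ᶜ + #(A ∪ B) = Fintype.card V := by
    rw [card_compl]
    have := card_le_univ (A ∪ B)
    omega
  have c7 : #Aᶜ + #A = Fintype.card V := by
    rw [card_compl]
    have := card_le_univ A
    omega
  have c8 : #A ≤ #Aᶜ := hA.m2 _ hA.cyc (by rw [compl_compl]; exact hA.cy) (X.δ_compl A)
  have hδU : X.δ (A ∪ B)ᶜ = X.δ (A ∪ B) := X.δ_compl _
  have big : ∀ S, X.Cy S → X.Cy Sᶜ → #S < #A → X.δ A + 1 ≤ X.δ S := by
    intro S h1 h2 h3
    have h4 := hA.m1 S h1 h2
    rcases Nat.eq_or_lt_of_le h4 with h5 | h5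
    · have := hA.m2 S h1 h2 h5.symm
      omega
    · exact h5
  by_cases hI : X.Cy (A ∩ B)
  · have h1 := big (A ∩ B) hI (hA.cyc.mono (compl_subset_compl.2 inter_subset_left)) (by omega)
    have hU : ¬ X.Cy (A ∪ B)ᶜ := by
      intro h
      have := hA.m1 (A ∪ B) (hA.cy.mono subset_union_left) h
      omega
    have h2 := hX.cy_card hI
    have h3 := hX.acyc hk3 _ (card_pos.1 (show 0 < #(A ∪ B)ᶜ by omega)) hU
    omega
  · have h1 := hX.acyc hk3 _ hAB hI
    have h2 : #(A ∩ B) + 2 ≤ X.δ A := by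
      by_cases hU : X.Cy (A ∪ B)ᶜ
      · have := hA.m1 (A ∪ B) (hA.cy.mono subset_union_left) hU
        omega
      · have h3 := hX.acyc hk3 _ (card_pos.1 (show 0 < #(A ∪ B)ᶜ by omega)) hU
        omega
    have h3 : #(A \ B) + 2 ≤ X.δ A := by
      have hneD : (A \ B).Nonempty := card_pos.1 c3
      have hneE : (B \ A).Nonempty := card_pos.1 (by omega)
      have q1 : X.Cy (A \ B)ᶜ := hA.cyc.mono (compl_subset_compl.2 sdiff_subset)
      have q2 : X.Cy (B \ A)ᶜ := hBcc.mono (compl_subset_compl.2 sdiff_subset)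
      by_cases hD : X.Cy (A \ B) <;> by_cases hE : X.Cy (B \ A)
      · have := big _ hD q1 (by omega)
        have := big _ hE q2 (by omega)
        omega
      · have := big _ hD q1 (by omega)
        have := hX.acyc hk3 _ hneE hE
        omega
      · have := big _ hE q2 (by omega)
        have := hX.acyc hk3 _ hneD hD
        omega
      · have := hX.acyc hk3 _ hneE hE
        have := hX.acyc hk3 _ hneD hD
        omega
    omega

end AtomFacts

/-- Connected vertex transitive cubic graphs of girth at least `k`, `k` at least `6`, are cyclically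
`k`-edge-connected. -/
theorem Col.Girth.cyclic (hX : X.Girth k) (hk : 6 ≤ k) (ht : X.Trans) (hc : ∀ u v, X.Reach u v)
    (S : Finset V) (hS : X.Cy S) (hS' : X.Cy Sᶜ) : k ≤ X.δ S := by
  classical
  by_contra hcon
  push Not at hcon
  obtain ⟨A, hAm, hmin⟩ := exists_min_image
    ((univ : Finset (Finset V)).filter (fun S => X.Cy S ∧ X.Cy Sᶜ))
    (fun S => X.δ S * (Fintype.card V + 1) + #S) ⟨S, by simp [hS, hS']⟩
  simp only [mem_filter, mem_univ, true_and] at hAm hmin
  have hA : X.Atom A := by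
    refine ⟨hAm.1, hAm.2, fun S h1 h2 => ?_, fun S h1 h2 h3 => ?_⟩
    · have h := hmin S ⟨h1, h2⟩
      by_contra hlt
      push Not at hlt
      have h4 : #S ≤ Fintype.card V := card_le_univ S
      nlinarith
    · have h := hmin S ⟨h1, h2⟩
      rw [h3] at h
      omega
  have hlt : X.δ A < k := lt_of_le_of_lt (hA.m1 S hS hS') hcon
  have hge := hA.card_ge hX hk hlt
  have hconst : ∀ u ∈ A, ∀ v ∈ A, X.e {v} Aᶜ = X.e {u} Aᶜ := by
    intro u hu v hv
    obtain ⟨θ, hθ, huv⟩ := ht u v
    have hmap : ∀ S T : Finset V, X.e (S.map θ.toEmbedding) (T.map θ.toEmbedding) = X.e S T := by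
      intro S T
      unfold Col.e
      rw [sum_map]
      refine sum_congr rfl (fun w _ => ?_)
      congr 1
      ext i
      simp only [mem_filter, mem_univ, true_and, Equiv.coe_toEmbedding, ← hθ]
      simp
    have hcompl : ∀ S : Finset V, (S.map θ.toEmbedding)ᶜ = Sᶜ.map θ.toEmbedding := by
      intro S
      ext w
      simp only [mem_compl, mem_map_equiv]
    have hcy : ∀ S : Finset V, X.Cy S → X.Cy (S.map θ.toEmbedding) := by
      rintro S ⟨Z, hZ, hne, hZ2⟩
      refine ⟨Z.map θ.toEmbedding, map_subset_map.2 hZ, hne.map, ?_⟩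
      intro w hw
      rw [mem_map] at hw
      obtain ⟨z, hz, rfl⟩ := hw
      have h1 := hZ2 z hz
      rw [← X.e_single] at h1 ⊢
      have h2 := hmap {z} Z
      rw [map_singleton] at h2
      rw [h2]
      exact h1
    have hAB : A = A.map θ.toEmbedding := by
      apply hA.eq hX hk hlt (hcy A hA.cy) (by rw [hcompl]; exact hcy _ hA.cyc)
      · unfold Col.δ
        rw [hcompl, hmap]
      · rw [card_map]
      · refine ⟨v, mem_inter.2 ⟨hv, ?_⟩⟩
        rw [mem_map]
        exact ⟨u, hu, huv⟩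
    have h1 := hmap {u} Aᶜ
    rw [map_singleton, ← hcompl, ← hAB] at h1
    rw [← h1, ← huv]
    rfl
  obtain ⟨u, hu⟩ := card_pos.1 (show 0 < #A by omega)
  have ho := hA.out_le hX hk hlt hu
  rcases Nat.lt_or_ge (X.e {u} Aᶜ) 1 with h0 | h1
  · -- the atom is everything
    have hclosed : ∀ v ∈ A, ∀ i, X.τ i v ∈ A := by
      intro v hv i
      have h2 := hconst u hu v hv
      have h3 : X.e {v} Aᶜ = 0 := by omega
      rw [X.e_single, card_eq_zero, filter_eq_empty_iff] at h3
      have := h3 (mem_univ i)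
      simpa using this
    have hall : ∀ v, v ∈ A := by
      intro v
      have := hc u v
      induction this with
      | refl => exact hu
      | tail _ hbc ih =>
        obtain ⟨i, rfl⟩ := hbc
        exact hclosed _ ih i
    obtain ⟨Z, hZ, hne, _⟩ := hA.cyc
    obtain ⟨z, hz⟩ := hne
    exact (mem_compl.1 (hZ hz)) (hall z)
  · have h2 : X.e {u} Aᶜ = 1 := by omega
    have h3 : X.δ A = #A := by
      have : X.δ A = ∑ v ∈ A, X.e {v} Aᶜ := by
        unfold Col.δ Col.e
        refine sum_congr rfl (fun w _ => ?_)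
        rw [sum_singleton]
      rw [this, sum_congr rfl (fun v hv => (hconst u hu v hv).trans h2), sum_const, smul_eq_mul,
        mul_one]
    omega

end Pool.Agent.Helper74_SE
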