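import Pool.Agent.Helper74_SE.Tower

/-!
# The base: long hexagonal tori, and the tower
-/

namespace Pool.Agent.Helper74_SE

/-- The three shifts. -/
def sh : ZMod 3 → ℤ := fun i => if i = 0 then 0 else if i = 1 then 1 else 3

/-- The Haar graph of `ZMod N` with the set `{0, 1, 3}`. -/
def haar (N : ℕ) : Col (ZMod N × Bool) where
  τ i p := (if p.2 then p.1 - (sh i : ZMod N) else p.1 + (sh i : ZMod N), !p.2)
  inv i p := by
    rcases p with ⟨x, b⟩
    cases b <;> simp

theorem sh_ne {a b : ZMod 3} : a ≠ b → sh a - sh b ≠ 0 := by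
  revert a b; decide

theorem sh_ne4 {a b c d : ZMod 3} : b ≠ a → c ≠ b → d ≠ c → sh a - sh b + sh c - sh d ≠ 0 := by
  revert a b c d; decide

theorem sh_le (a b : ZMod 3) : |sh a - sh b| ≤ 3 := by
  revert a b; decide

theorem sh_le4 (a b c d : ZMod 3) : |sh a - sh b + sh c - sh d| ≤ 6 := by
  revert a b c d; decide

theorem cast_ne {N : ℕ} (hN : 7 ≤ N) {z : ℤ} (h0 : z ≠ 0) (hz : |z| ≤ 6) : (z : ZMod N) ≠ 0 := by
  intro h
  rw [ZMod.intCast_zmod_eq_zero_iff_dvd] at h
  have := Int.le_of_dvd (abs_pos.2 h0) ((dvd_abs _ _).2 h)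
  omega

theorem haar_girth {N : ℕ} (hN : 7 ≤ N) : (haar N).Girth 6 := by
  intro b v c hb hnb hcl
  by_contra hlt
  have hb6 : b < 6 := by omega
  obtain ⟨h1, h2⟩ := hnb
  have hstep : ∀ n < b, (v (n + 1)).2 = !(v n).2 := fun n hn => by rw [h1 n hn]; rfl
  interval_cases b
  · have := hstep 0 (by norm_num)
    rw [hcl] at this
    simp at this
  · -- two steps
    have e0 := h1 0 (by norm_num)
    have e1 := h1 1 (by norm_num)
    rw [e0, hcl] at e1
    rcases hv : v 0 with ⟨x, β⟩
    rw [hv] at e1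
    have hc := sh_ne (h2 0 (by norm_num))
    have hz := cast_ne hN (z := sh (c (0 + 1)) - sh (c 0)) hc ((sh_le _ _).trans (by norm_num))
    have := (Prod.ext_iff.1 e1).1
    cases β
    · simp only [haar] at this
      apply hz
      push_cast
      simp at this
      linear_combination this
    · simp only [haar] at this
      apply hz
      push_cast
      simp at this
      linear_combination -this
  · have a0 := hstep 0 (by norm_num)
    have a1 := hstep 1 (by norm_num)
    have a2 := hstep 2 (by norm_num)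
    rw [a1, a0] at a2
    rw [show (2 + 1 : ℕ) = 3 from rfl, hcl] at a2
    simp at a2
  · have e0 := h1 0 (by norm_num)
    have e1 := h1 1 (by norm_num)
    have e2 := h1 2 (by norm_num)
    have e3 := h1 3 (by norm_num)
    rw [e2, e1, e0, hcl] at e3
    rcases hv : v 0 with ⟨x, β⟩
    rw [hv] at e3
    have hc := sh_ne4 (h2 0 (by norm_num)) (h2 1 (by norm_num)) (h2 2 (by norm_num))
    have hz := cast_ne hN hc (sh_le4 _ _ _ _)
    have := (Prod.ext_iff.1 e3).1
    cases β
    · simp only [haar] at this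
      apply hz
      push_cast
      simp at this
      linear_combination -this
    · simp only [haar] at this
      apply hz
      push_cast
      simp at this
      linear_combination this
  · have a0 := hstep 0 (by norm_num)
    have a1 := hstep 1 (by norm_num)
    have a2 := hstep 2 (by norm_num)
    have a3 := hstep 3 (by norm_num)
    have a4 := hstep 4 (by norm_num)
    rw [a3, a2, a1, a0] at a4
    rw [show (4 + 1 : ℕ) = 5 from rfl, hcl] at a4
    simp at a4

theorem haar_face (N : ℕ) (d : (ZMod N × Bool) × ZMod 3) : (haar N).φ^[6] d = d := by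
  rcases d with ⟨⟨x, b⟩, i⟩
  have h : ∀ i : ZMod 3, i = 0 ∨ i = 1 ∨ i = 2 := by decide
  have e1 : (1 + 1 : ZMod 3) = 2 := by decide
  have e2 : (2 + 1 : ZMod 3) = 0 := by decide
  have s0 : sh 0 = 0 := by decide
  have s1 : sh 1 = 1 := by decide
  have s2 : sh 2 = 3 := by decide
  rcases h i with rfl | rfl | rfl <;> cases b <;>
    simp only [Function.iterate_succ, Function.iterate_zero, Function.comp, id, Col.φ, haar, zero_add,
      e1, e2, s0, s1, s2, Bool.not_true, Bool.not_false, if_true, Prod.mk.injEq, and_true] <;>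
    norm_num <;> ring

theorem haar_good {N : ℕ} (hN : 7 ≤ N) : (haar N).Good 6 := ⟨haar_girth hN, haar_face N⟩

theorem haar_lip {N : ℕ} (hN : 7 ≤ N) (i : ZMod 3) (p : ZMod N × Bool) :
    ((((haar N).τ i p).1.valMinAbs.natAbs : ℕ) : ℤ) ≤ (p.1.valMinAbs.natAbs : ℤ) + 3 := by
  have : NeZero N := ⟨by omega⟩
  have key : ∀ (x : ZMod N) (z : ℤ), z.natAbs ≤ 3 →
      (x + (z : ZMod N)).valMinAbs.natAbs ≤ x.valMinAbs.natAbs + 3 := by
    intro x z hz
    have h1 := ZMod.natAbs_valMinAbs_add_le x (z : ZMod N)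
    have h2 := Int.natAbs_add_le x.valMinAbs (z : ZMod N).valMinAbs
    have h3 : ((z : ZMod N).valMinAbs).natAbs ≤ z.natAbs :=
      ZMod.natAbs_min_of_le_div_two N _ z (by simp) (ZMod.natAbs_valMinAbs_le _)
    omega
  have hs : ∀ i : ZMod 3, (sh i).natAbs ≤ 3 := by decide
  rcases p with ⟨x, b⟩
  cases b
  · have := key x (sh i) (hs i)
    simp only [haar]
    simp only [Bool.false_eq_true, if_false]
    exact_mod_cast this
  · have := key x (-sh i) (by rw [Int.natAbs_neg]; exact hs i)
    simp only [haar]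
    simp only [if_true]
    rw [Int.cast_neg, ← sub_eq_add_neg] at this
    exact_mod_cast this

theorem haar_reach (N : ℕ) (t : ℕ) : (haar N).Reach ((0 : ZMod N), false) ((t : ZMod N), false) := by
  induction t with
  | zero => rw [Nat.cast_zero]; exact Relation.ReflTransGen.refl
  | succ t ih =>
    refine (ih.tail (b := _) (c := ((t : ZMod N) + 1, true)) ⟨1, ?_⟩).tail ⟨0, ?_⟩
    · have s1 : sh 1 = 1 := by decide
      simp [haar, s1]
    · have s0 : sh 0 = 0 := by decide
      simp [haar, s0]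

theorem haar_trans (N : ℕ) : (haar N).Trans := by
  have htr : ∀ (t : ZMod N), ∃ θ : (ZMod N × Bool) ≃ (ZMod N × Bool),
      (∀ i w, θ ((haar N).τ i w) = (haar N).τ i (θ w)) ∧ ∀ x b, θ (x, b) = (x + t, b) := by
    intro t
    refine ⟨⟨fun p => (p.1 + t, p.2), fun p => (p.1 - t, p.2), fun p => by simp, fun p => by simp⟩,
      ?_, fun _ _ => rfl⟩
    rintro i ⟨x, b⟩
    cases b
    · simp [haar]; ring
    · simp [haar]; ring
  rintro ⟨x, b⟩ ⟨y, b'⟩
  by_cases hb : b = b'
  · subst hb
    obtain ⟨θ, h1, h2⟩ := htr (y - x)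
    exact ⟨θ, h1, by rw [h2]; simp⟩
  · obtain ⟨θ, h1, h2⟩ := htr (y + x)
    have hb' : b' = !b := by cases b <;> cases b' <;> simp_all
    subst hb'
    refine ⟨(⟨fun p => (-p.1, !p.2), fun p => (-p.1, !p.2), fun p => by simp, fun p => by simp⟩ :
      (ZMod N × Bool) ≃ (ZMod N × Bool)).trans θ, ?_, ?_⟩
    · rintro i ⟨z, c⟩
      simp only [Equiv.trans_apply, Equiv.coe_fn_mk]
      rw [← h1]
      congr 1
      cases c
      · simp [haar]; ring
      · simp [haar]; ring
    · simp only [Equiv.trans_apply, Equiv.coe_fn_mk]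
      rw [h2]
      simp

/-- Coloured cubic graphs of girth `6 * 2 ^ j` all of whose faces have length `6 * 2 ^ j`, with two
connected vertices at large distance. -/
theorem tower (j D : ℕ) : ∃ (V : Type) (_ : Finite V) (X : Col V) (u v : V) (h : V → ℤ),
    X.Good (6 * 2 ^ j) ∧ X.Trans ∧ X.Reach u v ∧ (∀ i w, h (X.τ i w) ≤ h w + 3) ∧ h u + D ≤ h v := by
  induction j with
  | zero =>
    have : NeZero (2 * D + 8) := ⟨by omega⟩
    refine ⟨ZMod (2 * D + 8) × Bool, inferInstance, haar (2 * D + 8), (0, false),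
      (((D + 4 : ℕ) : ZMod (2 * D + 8)), false), fun p => (p.1.valMinAbs.natAbs : ℤ), ?_,
      haar_trans _, haar_reach _ _, haar_lip (by omega), ?_⟩
    · simpa using haar_good (N := 2 * D + 8) (by omega)
    · simp only
      rw [ZMod.valMinAbs_natCast_of_le_half (by omega)]
      simp only [ZMod.valMinAbs_zero, Int.natAbs_zero, Int.natAbs_natCast]
      push_cast
      omega
  | succ j ih =>
    obtain ⟨V, hV, X, u, v, h, hg, ht, hr, hl, hD⟩ := ih
    obtain ⟨s', hs'⟩ := cover_reach X hr 0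
    refine ⟨V × (V × ZMod 3 → ZMod 2), inferInstance, X.cover, (u, 0), (v, s'), fun p => h p.1,
      ?_, cover_trans X ht, hs', fun i w => hl i w.1, hD⟩
    have := cover_good X (k := 6 * 2 ^ j) (by have := Nat.one_le_two_pow (n := j); omega) hg
    rwa [show 6 * 2 ^ (j + 1) = 2 * (6 * 2 ^ j) by ring]

/-- The same with all vertices connected. -/
theorem tower_conn (j D : ℕ) : ∃ (V : Type) (_ : Finite V) (X : Col V) (u v : V) (h : V → ℤ),
    X.Good (6 * 2 ^ j) ∧ X.Trans ∧ (∀ w, X.Reach u w) ∧ (∀ i w, h (X.τ i w) ≤ h w + 3) ∧ h u + D ≤ h v := by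
  obtain ⟨V, hV, X, u, v, h, hg, ht, hr, hl, hD⟩ := tower j D
  let C := {w : V // X.Reach u w}
  let Y : Col C := ⟨fun i w => ⟨X.τ i w.1, w.2.tail ⟨i, rfl⟩⟩, fun i w => Subtype.ext (X.inv i w.1)⟩
  refine ⟨C, inferInstance, Y, ⟨u, Relation.ReflTransGen.refl⟩, ⟨v, hr⟩, fun w => h w.1, ⟨?_, ?_⟩,
    ?_, ?_, fun i w => hl i w.1, hD⟩
  · intro b w c hb hnb hcl
    exact hg.girth b (fun n => (w n).1) c hb
      ⟨fun n hn => congrArg Subtype.val (hnb.1 n hn), hnb.2⟩ (congrArg Subtype.val hcl)
  · have key : ∀ (n : ℕ) (d : C × ZMod 3), ((Y.φ^[n] d).1.1, (Y.φ^[n] d).2) = X.φ^[n] (d.1.1, d.2) := by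
      intro n
      induction n with
      | zero => intro d; rfl
      | succ n ih => intro d; rw [Function.iterate_succ_apply, Function.iterate_succ_apply, ih]; rfl
    intro d
    have := key (6 * 2 ^ j) d
    rw [hg.face] at this
    exact Prod.ext (Subtype.ext (Prod.ext_iff.1 this).1) (Prod.ext_iff.1 this).2
  · rintro ⟨a, ha⟩ ⟨b, hb⟩
    obtain ⟨θ, hθ, hab⟩ := ht a b
    have hθ' : ∀ i w, θ.symm (X.τ i w) = X.τ i (θ.symm w) := by
      intro i w
      rw [Equiv.symm_apply_eq, hθ, Equiv.apply_symm_apply]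
    have hba : θ.symm b = a := by rw [← hab, Equiv.symm_apply_apply]
    have m1 : ∀ w, X.Reach u w → X.Reach u (θ w) := by
      intro w hw
      have h0 : X.Reach a w := ha.symm.trans hw
      have h1 := h0.map hθ
      rw [hab] at h1
      exact hb.trans h1
    have m2 : ∀ w, X.Reach u w → X.Reach u (θ.symm w) := by
      intro w hw
      have h0 : X.Reach b w := hb.symm.trans hw
      have h1 := h0.map hθ'
      rw [hba] at h1
      exact ha.trans h1
    refine ⟨⟨fun w => ⟨θ w.1, m1 w.1 w.2⟩, fun w => ⟨θ.symm w.1, m2 w.1 w.2⟩,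
      fun w => Subtype.ext (by simp), fun w => Subtype.ext (by simp)⟩, ?_, Subtype.ext hab⟩
    intro i w
    exact Subtype.ext (hθ i w.1)
  · rintro ⟨w, hw⟩
    have : ∀ w (hw : X.Reach u w), Y.Reach ⟨u, Relation.ReflTransGen.refl⟩ ⟨w, hw⟩ := by
      intro w hw
      induction hw with
      | refl => exact Relation.ReflTransGen.refl
      | tail hab hbc ih =>
        obtain ⟨i, rfl⟩ := hbc
        exact ih.tail ⟨i, rfl⟩
    exact this w hw

end Pool.Agent.Helper74_SE
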