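import Pool.Agent.Helper74_SE.Walks

/-!
# The new graph is connected, bridgeless and of large girth
-/

namespace Pool.Agent.Helper74_SE

variable {V : Type} (F : Far V)

/-- A step of the coloured graph survives the deletion of an edge. -/
theorem Far.step_reach (e : Sym2 (V ⊕ Bool)) (w : V) (i : ZMod 3)
    (h1 : s(Sum.inl w, F.nb (Sum.inl w) i) ≠ e)
    (h2 : s(Sum.inl (F.X.τ i w), F.nb (Sum.inl (F.X.τ i w)) i) ≠ e) :
    (F.G.deleteEdges {e}).Reachable (Sum.inl w) (Sum.inl (F.X.τ i w)) := by
  have a1 : (F.G.deleteEdges {e}).Adj (Sum.inl w) (F.nb (Sum.inl w) i) := by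
    rw [SimpleGraph.deleteEdges_adj]
    exact ⟨F.adj_nb _ _, h1⟩
  have a2 : (F.G.deleteEdges {e}).Adj (Sum.inl (F.X.τ i w)) (F.nb (Sum.inl (F.X.τ i w)) i) := by
    rw [SimpleGraph.deleteEdges_adj]
    exact ⟨F.adj_nb _ _, h2⟩
  by_cases hi : i = 0
  · subst hi
    by_cases hs : ∃ b, F.Sp b w
    · obtain ⟨b, hs⟩ := hs
      rw [F.nb_sp hs] at a1
      rw [F.nb_sp (F.sp_τ hs)] at a2
      exact a1.reachable.trans a2.symm.reachable
    · rw [F.nb_nsp (not_exists.1 hs)] at a1
      exact a1.reachable
  · rw [F.nb_ne hi] at a1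
    exact a1.reachable

theorem Far.reach_of (e : Sym2 (V ⊕ Bool))
    (h : ∀ w i, (F.G.deleteEdges {e}).Reachable (Sum.inl w) (Sum.inl (F.X.τ i w))) (w : V) :
    (F.G.deleteEdges {e}).Reachable (Sum.inl (F.pt false)) (Sum.inl w) := by
  have := F.conn w
  induction this with
  | refl => exact SimpleGraph.Reachable.refl _
  | tail _ hbc ih =>
    obtain ⟨i, rfl⟩ := hbc
    exact ih.trans (h _ i)

theorem Far.connected : F.G.Connected := by
  rw [SimpleGraph.connected_iff_exists_forall_reachable]
  refine ⟨Sum.inl (F.pt false), ?_⟩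
  have e : Sym2 (V ⊕ Bool) := s(Sum.inr false, Sum.inr false)
  have main : ∀ w, F.G.Reachable (Sum.inl (F.pt false)) (Sum.inl w) := by
    intro w
    have h0 : ∀ (x y : V ⊕ Bool), F.G.Adj x y → s(x, y) ≠ s(Sum.inr false, Sum.inr false) := by
      intro x y hxy h
      have : x = y := by
        rcases Sym2.eq_iff.1 h with ⟨h1, h2⟩ | ⟨h1, h2⟩ <;> rw [h1, h2]
      exact hxy.ne this
    exact (F.reach_of s(Sum.inr false, Sum.inr false) (fun w i => F.step_reach _ w i
      (h0 _ _ (F.adj_nb _ _)) (h0 _ _ (F.adj_nb _ _))) w).mono (SimpleGraph.deleteEdges_le _)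
  rintro (w | b)
  · exact main w
  · have : F.G.Adj (Sum.inr b) (Sum.inl (F.pt b)) := ⟨2, F.nb_r2 b⟩
    exact (main (F.pt b)).trans this.symm.reachable

theorem Far.same_edge {w w' : V} {i i' : ZMod 3}
    (h : s(Sum.inl w', F.nb (Sum.inl w') i') = s(Sum.inl w, F.nb (Sum.inl w) i)) :
    i' = i ∧ (w' = w ∨ w' = F.X.τ i w) := by
  rcases Sym2.eq_iff.1 h with ⟨h1, h2⟩ | ⟨h1, h2⟩
  · have hw : w' = w := Sum.inl_injective h1
    subst hw
    exact ⟨F.nb_inj _ h2, Or.inl rfl⟩
  · -- the neighbour is an old vertex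
    have hn : F.nb (Sum.inl w) i = Sum.inl (F.X.τ i w) ∧ F.rev (Sum.inl w) i = i := by
      by_cases hi : i = 0
      · subst hi
        have hs : ∀ b, ¬ F.Sp b w := by
          intro b hb
          rw [F.nb_sp hb] at h1
          simp at h1
        exact ⟨F.nb_nsp hs, F.rev_nsp hs⟩
      · exact ⟨F.nb_ne hi, F.rev_ne hi⟩
    have hw : w' = F.X.τ i w := by
      rw [hn.1] at h1
      exact Sum.inl_injective h1
    subst hw
    have h3 := F.nb_nb (Sum.inl w) i
    rw [hn.1, hn.2] at h3
    exact ⟨F.nb_inj _ (h2.trans h3.symm), Or.inr rfl⟩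

/-- The face of the coloured graph through an edge comes back without using the edge. -/
theorem Far.avoid (w : V) (i : ZMod 3) {n : ℕ} (hn : 1 ≤ n) (hk : n < F.k) :
    ¬ ((F.X.φ^[n] (w, i)).2 = i ∧
      ((F.X.φ^[n] (w, i)).1 = w ∨ (F.X.φ^[n] (w, i)).1 = F.X.τ i w)) := by
  have hnb : ∀ b, F.X.NB b (fun n => (F.X.φ^[n] (w, i)).1) (fun n => (F.X.φ^[n] (w, i)).2) := by
    intro b
    constructor
    · intro n _
      simp only [Function.iterate_succ_apply']
      rfl
    · intro n _
      simp only [Function.iterate_succ_apply']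
      simp [Col.φ]
  rintro ⟨h1, h2 | h2⟩
  · have := F.good.girth n _ _ (by omega) (hnb n) h2
    omega
  · rcases Nat.lt_or_ge 1 n with h3 | h3
    · have := F.good.girth (n - 1) _ _ (by omega) ((hnb n).shift (i := 1) (m := n - 1) (by omega))
        (show (F.X.φ^[1 + (n - 1)] (w, i)).1 = (F.X.φ^[1 + 0] (w, i)).1 by
          rw [show 1 + (n - 1) = n by omega, h2]
          rfl)
      omega
    · have h4 : n = 1 := by omega
      subst h4
      have : i + 1 = i := h1
      simp at this

theorem Far.back (w : V) (i : ZMod 3) :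
    (F.G.deleteEdges {s(Sum.inl w, F.nb (Sum.inl w) i)}).Reachable
      (Sum.inl (F.X.τ i w)) (Sum.inl w) := by
  have hk := F.hk
  have main : ∀ n, 1 ≤ n → n ≤ F.k → (F.G.deleteEdges {s(Sum.inl w, F.nb (Sum.inl w) i)}).Reachable
      (Sum.inl (F.X.τ i w)) (Sum.inl (F.X.φ^[n] (w, i)).1) := by
    intro n hn
    induction n, hn using Nat.le_induction with
    | base => intro _; exact SimpleGraph.Reachable.refl _
    | succ n hn ih =>
      intro hle
      refine (ih (by omega)).trans ?_
      have hav := F.avoid w i hn (by omega)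
      have hstep : (F.X.φ^[n + 1] (w, i)).1 =
          F.X.τ (F.X.φ^[n] (w, i)).2 (F.X.φ^[n] (w, i)).1 := by
        rw [Function.iterate_succ_apply']; rfl
      rw [hstep]
      apply F.step_reach
      · intro h
        exact hav (F.same_edge h)
      · intro h
        obtain ⟨h1, h2⟩ := F.same_edge h
        apply hav
        refine ⟨h1, ?_⟩
        rw [h1] at h2
        rcases h2 with h2 | h2
        · right
          have := congrArg (F.X.τ i) h2
          rwa [F.X.inv] at this
        · left
          have := congrArg (F.X.τ i) h2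
          rwa [F.X.inv, F.X.inv] at this
  have := main F.k (by omega) le_rfl
  rwa [F.good.face] at this

theorem Far.not_bridge (e : Sym2 (V ⊕ Bool)) (he : e ∈ F.G.edgeSet) : ¬ F.G.IsBridge e := by
  have case1 : ∀ w i, ¬ F.G.IsBridge s(Sum.inl w, F.nb (Sum.inl w) i) := by
    intro w i
    rw [SimpleGraph.isBridge_iff, not_not]
    have hb := F.back w i
    by_cases hcase : F.nb (Sum.inl w) i = Sum.inl (F.X.τ i w)
    · rw [hcase] at hb ⊢
      exact hb.symm
    · have hi : i = 0 := by
        by_contra hi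
        exact hcase (F.nb_ne hi)
      subst hi
      have hs : ∃ b, F.Sp b w := by
        by_contra hs
        exact hcase (F.nb_nsp (not_exists.1 hs))
      obtain ⟨b, hs⟩ := hs
      have a2 : (F.G.deleteEdges {s(Sum.inl w, F.nb (Sum.inl w) 0)}).Adj (Sum.inl (F.X.τ 0 w))
          (F.nb (Sum.inl w) 0) := by
        rw [SimpleGraph.deleteEdges_adj]
        refine ⟨?_, ?_⟩
        · rw [F.nb_sp hs, ← F.nb_sp (F.sp_τ hs)]
          exact F.adj_nb _ _
        · intro h
          rcases Sym2.eq_iff.1 (Set.mem_singleton_iff.1 h) with ⟨h1, _⟩ | ⟨h1, _⟩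
          · exact F.good.girth.ne_self (by have := F.hk; omega) 0 w (Sum.inl_injective h1)
          · rw [F.nb_sp hs] at h1
            simp at h1
      exact hb.symm.trans a2.reachable
  induction e using Sym2.inductionOn with
  | _ x y =>
    obtain ⟨i, hi⟩ : F.G.Adj x y := he
    rcases x with w | b
    · rw [← hi]
      exact case1 w i
    · rcases y with w | b'
      · rw [Sym2.eq_swap]
        obtain ⟨j, hj⟩ : F.G.Adj (Sum.inl w) (Sum.inr b) := (show F.G.Adj _ _ from ⟨i, hi⟩).symm
        rw [← hj]
        exact case1 w j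
      · -- the long edge
        rw [SimpleGraph.isBridge_iff, not_not]
        have h0 : ∀ w i, s(Sum.inl w, F.nb (Sum.inl w) i) ≠ s(Sum.inr b, Sum.inr b') := by
          intro w i h
          rcases Sym2.eq_iff.1 h with ⟨h1, _⟩ | ⟨h1, _⟩ <;> simp at h1
        have h1 := F.reach_of s(Sum.inr b, Sum.inr b') (fun w i => F.step_reach _ w i (h0 _ _) (h0 _ _))
        have h2 : ∀ c, (F.G.deleteEdges {s(Sum.inr b, Sum.inr b')}).Reachable
            (Sum.inl (F.pt false)) (Sum.inr c) := by
          intro c
          refine (h1 (F.pt c)).trans (SimpleGraph.Adj.reachable ?_)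
          rw [SimpleGraph.deleteEdges_adj]
          refine ⟨(show F.G.Adj (Sum.inr c) (Sum.inl (F.pt c)) from ⟨2, F.nb_r2 c⟩).symm, ?_⟩
          intro h
          rcases Sym2.eq_iff.1 (Set.mem_singleton_iff.1 h) with ⟨h1, _⟩ | ⟨h1, _⟩ <;> simp at h1
        exact (h2 b).symm.trans (h2 b')

/-! ### Girth -/

open Classical in
/-- The port from `x` to `y`. -/
noncomputable def Far.port (x y : V ⊕ Bool) : ZMod 3 :=
  if h : ∃ i, F.nb x i = y then h.choose else 0

theorem Far.port_spec {x y : V ⊕ Bool} (h : F.G.Adj x y) : F.nb x (F.port x y) = y := by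
  have h' : ∃ i, F.nb x i = y := h
  unfold Far.port
  rw [dif_pos h']
  exact h'.choose_spec

theorem Far.le_egirth (hD : 3 * F.k ≤ F.D + 3) : (F.k : ℕ∞) ≤ F.G.egirth := by
  rw [SimpleGraph.le_egirth]
  intro a p hp
  have hL := hp.three_le_length
  set L := p.length with hLdef
  let y : ℕ → V ⊕ Bool := fun n => p.getVert (n % L)
  have hyadj : ∀ n, F.G.Adj (y n) (y (n + 1)) := by
    intro n
    have h1 : n % L < L := Nat.mod_lt _ (by omega)
    have h2 := p.adj_getVert_succ (i := n % L) h1
    rcases Nat.lt_or_ge (n % L + 1) L with h3 | h3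
    · have h4 : (n + 1) % L = n % L + 1 := by
        rw [Nat.add_mod, Nat.mod_eq_of_lt (show 1 < L by omega), Nat.mod_eq_of_lt h3]
      simp only [y, h4]
      exact h2
    · have h4 : (n + 1) % L = 0 := by
        rw [Nat.add_mod, Nat.mod_eq_of_lt (show 1 < L by omega), show n % L + 1 = L by omega,
          Nat.mod_self]
      simp only [y, h4]
      rw [show n % L + 1 = L by omega] at h2
      rw [p.getVert_zero]
      have h5 : p.getVert L = a := p.getVert_length
      rwa [h5] at h2
  have hyinj : ∀ m n, y m = y n → m % L = n % L := by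
    intro m n h
    exact hp.getVert_injOn' (by have := Nat.mod_lt m (show 0 < L by omega); simp only [Set.mem_ofPred_eq]; omega)
      (by have := Nat.mod_lt n (show 0 < L by omega); simp only [Set.mem_ofPred_eq]; omega) h
  let x : ℕ → (V ⊕ Bool) × ZMod 3 := fun n => (y n, F.port (y n) (y (n + 1)))
  have hper : ∀ n, y (n + L) = y n := by
    intro n
    simp only [y, Nat.add_mod_right]
  have hxper : ∀ n, x (n + L) = x n := by
    intro n
    have h1 : y (n + L + 1) = y (n + 1) := by
      rw [show n + L + 1 = n + 1 + L by omega]; exact hper _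
    simp only [x, hper, h1]
  have hmod2 : ∀ n, (n + 2) % L ≠ n % L := by
    intro n h
    have h2 : (n + 2) ≡ (n + 0) [MOD L] := h
    have := (Nat.ModEq.add_left_cancel' n h2)
    have h3 : 2 % L = 0 % L := this
    rw [Nat.mod_eq_of_lt (show 2 < L by omega), Nat.zero_mod] at h3
    omega
  have hx : ∀ n, F.Nx (x n) (x (n + 1)) := by
    intro n
    refine ⟨(F.port_spec (hyadj n)).symm, ?_⟩
    intro h
    have h1 : y (n + 1) = F.nb (x n).1 (x n).2 := (F.port_spec (hyadj n)).symm
    have h2 := F.port_spec (hyadj (n + 1))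
    have h3 : (x (n + 1)).2 = F.port (y (n + 1)) (y (n + 2)) := rfl
    rw [show n + 1 + 1 = n + 2 from rfl, ← h3, h, h1, F.nb_nb] at h2
    exact hmod2 n (hyinj _ _ h2.symm)
  have main : F.k ≤ L := by
    by_cases hl : ∃ m, IsLong (x m)
    · obtain ⟨m, b, hm⟩ := hl
      have ym : y m = Sum.inr b := congrArg Prod.fst hm
      have ym1 : y (m + 1) = Sum.inr (!b) := by
        have := (hx m).1
        rw [hm, F.nb_r0] at this
        exact this
      have := F.period_of_long (x := fun n => x (m + n)) (fun n => hx (m + n)) (b := b)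
        (by simpa using hm) (t := L) (by omega) (by simpa using hxper m) (by
          intro n hn hnL ⟨b', hb'⟩
          have yn : y (m + n) = Sum.inr b' := congrArg Prod.fst hb'
          have yn1 : y (m + n + 1) = Sum.inr (!b') := by
            have := (hx (m + n)).1
            rw [hb', F.nb_r0] at this
            exact this
          by_cases hbb : b' = b
          · subst hbb
            have h1 := hyinj _ _ (yn.trans ym.symm)
            have h2 : (m + n) ≡ (m + 0) [MOD L] := h1
            have h3 : n % L = 0 % L := Nat.ModEq.add_left_cancel' m h2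
            rw [Nat.mod_eq_of_lt hnL, Nat.zero_mod] at h3
            omega
          · have hb2 : b' = !b := by cases b <;> cases b' <;> simp_all
            subst hb2
            have h1 := hyinj _ _ (yn.trans ym1.symm)
            have h2 : (m + n) ≡ (m + 1) [MOD L] := h1
            have h3 : n % L = 1 % L := Nat.ModEq.add_left_cancel' m h2
            rw [Nat.mod_eq_of_lt hnL, Nat.mod_eq_of_lt (show 1 < L by omega)] at h3
            subst h3
            rw [Bool.not_not] at yn1
            exact hmod2 m (hyinj _ _ (yn1.trans ym.symm)))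
      omega
    · exact F.period_of_avoid hx (not_exists.1 hl) (by omega) hxper
  exact_mod_cast main

end Pool.Agent.Helper74_SE
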