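import Pool.Agent.Helper74_SE.Walks

/-!
# Counting regions
-/

namespace Pool.Agent.Helper74_SE

open Equiv.Perm

section General

variable {α : Type} (f : Equiv.Perm α)

/-- The cycles of a permutation. -/
abbrev Cyc : Type := Quotient (SameCycle.setoid f)

/-- The size of a cycle. -/
noncomputable def sz (q : Cyc f) : ℕ := Nat.card {x : α // (Quotient.mk (SameCycle.setoid f) x) = q}

theorem sum_sz [Finite α] [Fintype (Cyc f)] : ∑ q, sz f q = Nat.card α := by
  unfold sz
  rw [← Nat.card_sigma, Nat.card_congr (Equiv.sigmaFiberEquiv _)]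

theorem mk_pow (x : α) (n : ℕ) : (Quotient.mk (SameCycle.setoid f) ((f ^ n) x)) =
    Quotient.mk (SameCycle.setoid f) x :=
  Quotient.sound (show SameCycle f ((f ^ n) x) x from (SameCycle.symm ⟨n, by simp⟩))

theorem le_sz [Finite α] {x : α} {m : ℕ} (h : ∀ t, 0 < t → t < m → (f ^ t) x ≠ x) :
    m ≤ sz f (Quotient.mk _ x) := by
  have hinj : Function.Injective (fun i : Fin m =>
      (⟨(f ^ (i : ℕ)) x, mk_pow f x i⟩ :
        {y : α // (Quotient.mk (SameCycle.setoid f) y) = Quotient.mk _ x})) := by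
    intro i j hij
    have hij' : (f ^ (i : ℕ)) x = (f ^ (j : ℕ)) x := congrArg Subtype.val hij
    have key : ∀ a b : ℕ, a < b → b < m → (f ^ a) x = (f ^ b) x → False := by
      intro a b hab hb hh
      apply h (b - a) (by omega) (by omega)
      have h1 : (f ^ b) x = (f ^ a) ((f ^ (b - a)) x) := by
        rw [← Equiv.Perm.mul_apply, ← pow_add]
        congr 2
        omega
      rw [h1] at hh
      exact ((f ^ a).injective hh).symm
    rcases lt_trichotomy (i : ℕ) j with hlt | heq | hgt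
    · exact (key i j hlt j.2 hij').elim
    · exact Fin.ext heq
    · exact (key j i hgt i.2 hij'.symm).elim
  have := Nat.card_le_card_of_injective _ hinj
  simpa [sz] using this

theorem sz_le [Finite α] {x : α} {k : ℕ} (hk : 0 < k) (h : (f ^ k) x = x) :
    sz f (Quotient.mk _ x) ≤ k := by
  have hsurj : Function.Surjective (fun i : Fin k =>
      (⟨(f ^ (i : ℕ)) x, mk_pow f x i⟩ :
        {y : α // (Quotient.mk (SameCycle.setoid f) y) = Quotient.mk _ x})) := by
    rintro ⟨y, hy⟩
    have h1 : SameCycle f x y := (Quotient.exact hy).symm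
    obtain ⟨z, hz⟩ := h1
    have hk' : (0 : ℤ) < k := by exact_mod_cast hk
    have hmod : 0 ≤ z % k := Int.emod_nonneg _ (by omega)
    have hlt : z % k < k := Int.emod_lt_of_pos _ hk'
    refine ⟨⟨(z % k).toNat, by omega⟩, Subtype.ext ?_⟩
    have h2 : (f ^ (k : ℤ)) x = x := by rw [zpow_natCast]; exact h
    have h3 : ((f ^ (k : ℤ)) ^ (z / k)) x = x := zpow_apply_eq_self_of_apply_eq_self h2 _
    have h4 : (f ^ z) x = (f ^ (z % k)) x := by
      conv_lhs => rw [← Int.emod_add_mul_ediv z k, zpow_add, zpow_mul, Equiv.Perm.mul_apply, h3]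
    simp only
    rw [← hz, h4, ← zpow_natCast, Int.toNat_of_nonneg hmod]
  have := Nat.card_le_card_of_surjective _ hsurj
  simpa [sz] using this

theorem inv_zpow {β : Type} {g : α → β} (h : ∀ x, g (f x) = g x) (z : ℤ) (x : α) :
    g ((f ^ z) x) = g x := by
  have hn : ∀ (n : ℕ) (x : α), g ((f ^ n) x) = g x := by
    intro n
    induction n with
    | zero => intro x; simp
    | succ n ih => intro x; rw [pow_succ', Equiv.Perm.mul_apply, h, ih]
  cases z with
  | ofNat n => simpa using hn n x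
  | negSucc n =>
    rw [zpow_negSucc]
    have h1 := hn (n + 1) ((f ^ (n + 1))⁻¹ x)
    rw [← Equiv.Perm.mul_apply, mul_inv_cancel, Equiv.Perm.one_apply] at h1
    exact h1.symm

end General

variable {V : Type} (F : Far V)

/-- The face permutation of the coloured graph. -/
def Col.Φ (X : Col V) : Equiv.Perm (V × ZMod 3) where
  toFun := X.φ
  invFun d := (X.τ (d.2 - 1) d.1, d.2 - 1)
  left_inv d := by simp [Col.φ, X.inv]
  right_inv d := by simp [Col.φ, X.inv]

theorem Col.Φ_pow (X : Col V) (n : ℕ) (d : V × ZMod 3) : (X.Φ ^ n) d = X.φ^[n] d := by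
  rw [← Equiv.Perm.iterate_eq_pow]; rfl

open Classical in
/-- Merge the faces of the two marked darts. -/
noncomputable def Far.M (q : Cyc F.X.Φ) : Cyc F.X.Φ :=
  if q = Quotient.mk _ (F.pt true, 0) then Quotient.mk _ (F.pt false, 0) else q

theorem Far.M_pt (b : Bool) : F.M (Quotient.mk _ (F.pt b, 0)) = F.M (Quotient.mk _ (F.pt false, 0)) := by
  unfold Far.M
  cases b
  · rfl
  · rw [if_pos rfl]
    split_ifs <;> rfl

/-- The region of the colour embedding to which a dart of the new graph belongs. -/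
noncomputable def Far.g₀ : (V ⊕ Bool) × ZMod 3 → Cyc F.X.Φ
  | (Sum.inl w, i) => Quotient.mk _ (w, i)
  | (Sum.inr b, i) => if i = 2 then Quotient.mk _ (F.a b, 0) else Quotient.mk _ (F.pt b, 0)

theorem Far.mk_φ (w : V) (i : ZMod 3) : (Quotient.mk (SameCycle.setoid F.X.Φ) (F.X.τ i w, i + 1)) =
    Quotient.mk _ (w, i) := by
  have := mk_pow F.X.Φ (w, i) 1
  rw [pow_one] at this
  exact this

theorem Far.g₀_inv (x : V ⊕ Bool) (i : ZMod 3) :
    F.M (F.g₀ (F.nb x i, F.rev x i + 1)) = F.M (F.g₀ (x, i)) := by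
  have e1 : (2 + 1 : ZMod 3) = 0 := by decide
  have e2 : (1 + 1 : ZMod 3) = 2 := by decide
  have n0 : ¬ ((0 : ZMod 3) = 2) := by decide
  have n1 : ¬ ((1 : ZMod 3) = 2) := by decide
  rcases x with w | b
  · by_cases hi : i = 0
    · subst hi
      rcases F.cases_sp w with ⟨b, rfl⟩ | ⟨b, rfl⟩ | h
      · rw [F.nb_sp (b := b) (Or.inl rfl), F.rev_pt, e1]
        simp only [Far.g₀, if_neg n0]
      · rw [F.nb_sp (b := b) (Or.inr rfl), F.rev_a, e2]
        simp only [Far.g₀, if_true]
      · rw [F.nb_nsp h, F.rev_nsp h]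
        simp only [Far.g₀, F.mk_φ]
    · rw [F.nb_ne hi, F.rev_ne hi]
      simp only [Far.g₀, F.mk_φ]
  · rw [F.rev_r]
    rcases three i with rfl | rfl | rfl
    · rw [F.nb_r0, zero_add]
      simp only [Far.g₀, if_neg n0, if_neg n1]
      rw [F.M_pt, F.M_pt b]
    · rw [F.nb_r1]
      simp only [Far.g₀, if_neg n1]
      have := F.mk_φ (F.pt b) 0
      rw [← this]
      rfl
    · rw [F.nb_r2]
      simp only [Far.g₀, if_true]
      have := F.mk_φ (F.a b) 0
      rw [F.τa] at this
      rw [this]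

theorem Far.card_cyc_le [Finite V] : Nat.card (Cyc F.X.Φ) ≤ F.R₀.faces + 1 := by
  classical
  have : Finite F.G.Dart := Finite.of_equiv _ F.E
  have hinv : ∀ d, F.M (F.g₀ (F.E.symm (F.R₀.face d))) = F.M (F.g₀ (F.E.symm d)) := by
    intro d
    obtain ⟨⟨x, i⟩, rfl⟩ := F.E.surjective d
    rw [F.R₀_face, Equiv.symm_apply_apply, Equiv.symm_apply_apply]
    exact F.g₀_inv x i
  let G' : Cyc F.R₀.face → Cyc F.X.Φ := Quotient.lift (fun d => F.M (F.g₀ (F.E.symm d))) (by
    rintro a b ⟨z, rfl⟩
    exact (inv_zpow F.R₀.face (g := fun d => F.M (F.g₀ (F.E.symm d))) hinv z a).symm)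
  have hsurj : Function.Surjective (fun o : Option (Cyc F.R₀.face) =>
      (o.elim (Quotient.mk _ (F.pt true, 0)) G' : Cyc F.X.Φ)) := by
    intro q
    by_cases hq : q = Quotient.mk _ (F.pt true, 0)
    · exact ⟨none, hq.symm⟩
    · induction q using Quotient.inductionOn with
      | _ x =>
        rcases x with ⟨w, i⟩
        refine ⟨some (Quotient.mk _ (F.E (Sum.inl w, i))), ?_⟩
        show F.M (F.g₀ (F.E.symm (F.E (Sum.inl w, i)))) = _
        rw [Equiv.symm_apply_apply]
        show F.M (Quotient.mk _ (w, i)) = _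
        unfold Far.M
        rw [if_neg hq]
  have := Nat.card_le_card_of_surjective _ hsurj
  rwa [Finite.card_option] at this

theorem Far.faces_R₀ [Finite V] : 3 * Nat.card V ≤ F.k * (F.R₀.faces + 1) := by
  classical
  have : Fintype (Cyc F.X.Φ) := Fintype.ofFinite _
  have h1 : Nat.card (V × ZMod 3) = 3 * Nat.card V := by
    rw [Nat.card_prod, Nat.card_eq_fintype_card (α := ZMod 3), ZMod.card, mul_comm]
  have hk := F.hk
  have h2 : ∑ q : Cyc F.X.Φ, sz F.X.Φ q ≤ ∑ _q : Cyc F.X.Φ, F.k := by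
    refine Finset.sum_le_sum (fun q _ => ?_)
    induction q using Quotient.inductionOn with
    | _ x => exact sz_le F.X.Φ (by omega) (by rw [Col.Φ_pow]; exact F.good.face x)
  rw [sum_sz, h1, Finset.sum_const, smul_eq_mul, Finset.card_univ, mul_comm _ F.k,
    ← Nat.card_eq_fintype_card] at h2
  exact h2.trans (Nat.mul_le_mul_left _ F.card_cyc_le)

/-! ### An arbitrary rotation system -/

theorem Far.next_ne (R : Rotation F.G) (e : F.G.Dart) : R.next e ≠ e := by
  intro h
  obtain ⟨⟨x, i⟩, rfl⟩ := F.E.surjective e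
  obtain ⟨z, hz⟩ := R.cyclic (F.E (x, i)) (F.E (x, i + 1)) rfl
  rw [zpow_apply_eq_self_of_apply_eq_self h] at hz
  have := (Prod.ext_iff.1 (F.E.injective hz)).2
  simp at this

/-- The ports along a region. -/
noncomputable def Far.seq (R : Rotation F.G) (d : F.G.Dart) (n : ℕ) : (V ⊕ Bool) × ZMod 3 :=
  F.E.symm ((R.face ^ n) d)

theorem Far.seq_nx (R : Rotation F.G) (d : F.G.Dart) (n : ℕ) :
    F.Nx (F.seq R d n) (F.seq R d (n + 1)) := by
  set e := (R.face ^ n) d with he
  have h1 : (R.face ^ (n + 1)) d = R.next e.symm := by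
    rw [pow_succ', Equiv.Perm.mul_apply, ← he]
    rfl
  have h2 : e = F.E (F.seq R d n) := by rw [Far.seq, Equiv.apply_symm_apply]
  have h3 : (F.seq R d (n + 1)).1 = F.nb (F.seq R d n).1 (F.seq R d n).2 := by
    rw [Far.seq, F.fst_E, h1, R.fst_next]
    conv_lhs => rw [h2]
    rfl
  refine ⟨h3, fun h4 => ?_⟩
  apply F.next_ne R e.symm
  rw [← h1]
  have h5 : (R.face ^ (n + 1)) d = F.E (F.seq R d (n + 1)) := by
    rw [Far.seq, Equiv.apply_symm_apply]
  have h6 : F.seq R d (n + 1) = (F.nb (F.seq R d n).1 (F.seq R d n).2,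
      F.rev (F.seq R d n).1 (F.seq R d n).2) := Prod.ext h3 h4
  rw [h5, h6, ← F.E_symm, ← h2]

theorem Far.long_symm (b : Bool) : (F.E (Sum.inr b, 0)).symm = F.E (Sum.inr (!b), 0) := by
  rw [F.E_symm, F.nb_r0, F.rev_r]

theorem Far.sz_ge [Finite V] (R : Rotation F.G) (d : F.G.Dart)
    (h : ∀ b, ¬ R.face.SameCycle d (F.E (Sum.inr b, 0))) : F.k ≤ sz R.face (Quotient.mk _ d) := by
  have : Finite F.G.Dart := Finite.of_equiv _ F.E
  apply le_sz
  intro t ht htk hfix
  have hper : ∀ m, F.seq R d (m + t) = F.seq R d m := by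
    intro m
    rw [Far.seq, pow_add, Equiv.Perm.mul_apply, hfix, Far.seq]
  have := F.period_of_avoid (F.seq_nx R d) (fun m hm => ?_) ht hper
  · omega
  · obtain ⟨b, hb⟩ := hm
    apply h b
    refine ⟨m, ?_⟩
    rw [zpow_natCast, ← hb, Far.seq, Equiv.apply_symm_apply]

theorem Far.sz_long [Finite V] (R : Rotation F.G) (hR : R.CircuitFaces) (b : Bool) {m : ℕ}
    (hm : 3 * m ≤ F.D + 3) : m ≤ sz R.face (Quotient.mk _ (F.E (Sum.inr b, 0))) := by
  classical
  have : Finite F.G.Dart := Finite.of_equiv _ F.E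
  apply le_sz
  intro t ht htm hfix
  have hex : ∃ t, 0 < t ∧ (R.face ^ t) (F.E (Sum.inr b, 0)) = F.E (Sum.inr b, 0) := ⟨t, ht, hfix⟩
  obtain ⟨h1, h2⟩ := Nat.find_spec hex
  have h3 : Nat.find hex ≤ t := Nat.find_min' hex ⟨ht, hfix⟩
  have h4 : ∀ n, 0 < n → n < Nat.find hex → (R.face ^ n) (F.E (Sum.inr b, 0)) ≠ F.E (Sum.inr b, 0) :=
    fun n hn hlt heq => Nat.find_min hex hlt ⟨hn, heq⟩
  have h5 := F.period_of_long (F.seq_nx R (F.E (Sum.inr b, 0))) (b := b)
    (by rw [Far.seq]; simp) h1 (by rw [Far.seq, h2, Far.seq]; simp) (fun n hn hlt hl => ?_)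
  · omega
  · obtain ⟨b', hb'⟩ := hl
    have h6 : (R.face ^ n) (F.E (Sum.inr b, 0)) = F.E (Sum.inr b', 0) := by
      rw [← hb', Far.seq, Equiv.apply_symm_apply]
    by_cases hbb : b' = b
    · subst hbb
      exact h4 n hn hlt h6
    · have : b' = !b := by cases b <;> cases b' <;> simp_all
      subst this
      apply hR (F.E (Sum.inr b, 0))
      rw [F.long_symm]
      exact ⟨n, by rw [zpow_natCast]; exact h6⟩

theorem Far.faces_le [Finite V] (R : Rotation F.G) (hR : R.CircuitFaces) {m : ℕ}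
    (hm : 3 * m ≤ F.D + 3) : F.k * R.faces + 2 * m ≤ 3 * (Nat.card V + 2) + 2 * F.k := by
  classical
  have hfin : Finite F.G.Dart := Finite.of_equiv _ F.E
  have : Fintype (Cyc R.face) := Fintype.ofFinite _
  have h1 : Nat.card F.G.Dart = 3 * (Nat.card V + 2) := by
    rw [← Nat.card_congr F.E, Nat.card_prod, Nat.card_eq_fintype_card (α := ZMod 3), ZMod.card,
      Nat.card_sum, Nat.card_eq_fintype_card (α := Bool), Fintype.card_bool, mul_comm]
  set q : Bool → Cyc R.face := fun b => Quotient.mk _ (F.E (Sum.inr b, 0)) with hq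
  have hne : q false ≠ q true := by
    intro h
    have h2 : R.face.SameCycle (F.E (Sum.inr false, 0)) (F.E (Sum.inr true, 0)) := Quotient.exact h
    apply hR (F.E (Sum.inr false, 0))
    rw [F.long_symm]
    exact h2
  have key : ∀ p : Cyc R.face, F.k + ((if p = q false then m else 0) + (if p = q true then m else 0)) ≤
      sz R.face p + ((if p = q false then F.k else 0) + (if p = q true then F.k else 0)) := by
    intro p
    by_cases h1 : p = q false
    · have h2 : p ≠ q true := fun h => hne (h1.symm.trans h)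
      rw [if_pos h1, if_pos h1, if_neg h2, if_neg h2, h1]
      have : m ≤ sz R.face (q false) := F.sz_long R hR false hm
      omega
    · by_cases h2 : p = q true
      · rw [if_neg h1, if_neg h1, if_pos h2, if_pos h2, h2]
        have : m ≤ sz R.face (q true) := F.sz_long R hR true hm
        omega
      · rw [if_neg h1, if_neg h1, if_neg h2, if_neg h2]
        have : F.k ≤ sz R.face p := by
          induction p using Quotient.inductionOn with
          | _ d =>
            apply F.sz_ge R d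
            intro b hb
            have h3 : (Quotient.mk (SameCycle.setoid R.face) d) = q b := Quotient.sound hb
            cases b
            · exact h1 h3
            · exact h2 h3
        omega
  have hsum := Finset.sum_le_sum (fun p (_ : p ∈ (Finset.univ : Finset (Cyc R.face))) => key p)
  rw [Finset.sum_add_distrib, Finset.sum_add_distrib, Finset.sum_add_distrib,
    Finset.sum_add_distrib, sum_sz, h1, Finset.sum_ite_eq', Finset.sum_ite_eq', Finset.sum_ite_eq',
    Finset.sum_ite_eq', Finset.sum_const, smul_eq_mul, Finset.card_univ,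
    ← Nat.card_eq_fintype_card] at hsum
  simp only [Finset.mem_univ, if_true] at hsum
  have hf : R.faces = Nat.card (Cyc R.face) := rfl
  rw [hf, mul_comm]
  omega

theorem Far.gap [Finite V] (R : Rotation F.G) (hR : R.CircuitFaces) {N : ℕ}
    (hD : 9 * F.k + 18 + 6 * (F.k * N) ≤ 2 * F.D) : R.faces + 2 * N ≤ F.R₀.faces := by
  have h1 := F.faces_R₀
  have h2 := F.faces_le R hR (m := (F.D + 3) / 3) (by omega)
  have hk := F.hk
  have h3 : F.k * (R.faces + 2 * N) ≤ F.k * F.R₀.faces := by
    rw [mul_add] at h1 ⊢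
    rw [show F.k * (2 * N) = 2 * (F.k * N) by ring]
    omega
  exact Nat.le_of_mul_le_mul_left h3 (by omega)

theorem Far.genus_gap [Finite V] (R : Rotation F.G) (hR : R.CircuitFaces) {N : ℕ}
    (hD : 9 * F.k + 18 + 6 * (F.k * N) ≤ 2 * F.D) : F.R₀.genus + N ≤ R.genus := by
  have h := F.gap R hR hD
  have h' : (R.faces : ℚ) + 2 * N ≤ F.R₀.faces := by exact_mod_cast h
  unfold Rotation.genus
  linarith

end Pool.Agent.Helper74_SE
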