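import Pool.Agent.Helper74_SE.Atom2
import Pool.Agent.Helper74_SE.Conn

/-!
# The new graph is cyclically connected
-/

namespace Pool.Agent.Helper74_SE

open Finset

set_option linter.unusedSectionVars false

variable {V : Type} [Fintype V] [DecidableEq V]

theorem Col.e_card (X : Col V) (S T : Finset V) :
    X.e S T = #{p : V × ZMod 3 | p.1 ∈ S ∧ X.τ p.2 p.1 ∈ T} := by
  unfold Col.e
  rw [← card_sigma]
  refine card_bij (fun p _ => (p.1, p.2)) ?_ ?_ ?_
  · rintro ⟨v, i⟩ h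
    simpa using h
  · rintro ⟨v, i⟩ _ ⟨w, j⟩ _ h
    simp only [Prod.mk.injEq] at h
    obtain ⟨rfl, rfl⟩ := h
    rfl
  · rintro ⟨v, i⟩ h
    exact ⟨⟨v, i⟩, by simpa using h, rfl⟩

variable (F : Far V)

omit [Fintype V] [DecidableEq V] in
theorem Far.mid (w : V) (i : ZMod 3) :
    (F.nb (Sum.inl w) i = Sum.inl (F.X.τ i w) ∧ F.nb (Sum.inl (F.X.τ i w)) i = Sum.inl w) ∨
    ∃ b, F.nb (Sum.inl w) i = Sum.inr b ∧ F.nb (Sum.inl (F.X.τ i w)) i = Sum.inr b := by
  by_cases hi : i = 0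
  · subst hi
    by_cases hs : ∃ b, F.Sp b w
    · obtain ⟨b, hs⟩ := hs
      exact Or.inr ⟨b, F.nb_sp hs, F.nb_sp (F.sp_τ hs)⟩
    · have hs := not_exists.1 hs
      exact Or.inl ⟨F.nb_nsp hs, by
        rw [F.nb_nsp (fun b h => hs b (F.sp_τ_iff.1 h)), F.X.inv]⟩
  · exact Or.inl ⟨F.nb_ne hi, by rw [F.nb_ne hi, F.X.inv]⟩

open Classical in
theorem Far.δ_le (S : Set (V ⊕ Bool)) :
    F.X.δ ({w | Sum.inl w ∈ S} : Finset V) ≤
      #{p : (V ⊕ Bool) × ZMod 3 | p.1 ∈ S ∧ F.nb p.1 p.2 ∉ S} := by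
  unfold Col.δ
  rw [Col.e_card]
  apply card_le_card_of_injOn (fun p => if F.nb (Sum.inl (F.X.τ p.2 p.1)) p.2 ∈ S then
    (F.nb (Sum.inl (F.X.τ p.2 p.1)) p.2, F.rev (Sum.inl (F.X.τ p.2 p.1)) p.2)
      else (Sum.inl p.1, p.2))
  · rintro ⟨w, i⟩ h
    rw [mem_coe, mem_filter, mem_filter, mem_compl, mem_filter] at h
    simp only [mem_univ, true_and] at h
    rw [mem_coe, mem_filter]
    refine ⟨mem_univ _, ?_⟩
    beta_reduce
    split_ifs with hc
    · refine ⟨hc, ?_⟩
      rw [F.nb_nb]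
      exact h.2
    · refine ⟨h.1, ?_⟩
      rcases F.mid w i with ⟨h1, _⟩ | ⟨b, h1, h2⟩
      · rw [h1]; exact h.2
      · rw [h2] at hc
        rw [h1]; exact hc
  · rintro ⟨w, i⟩ h ⟨v, j⟩ h' heq
    rw [mem_coe, mem_filter, mem_filter, mem_compl, mem_filter] at h h'
    simp only [mem_univ, true_and] at h h'
    have mixed : ∀ (w v : V) (i j : ZMod 3), Sum.inl w ∈ S → Sum.inl v ∈ S →
        F.nb (Sum.inl (F.X.τ j v)) j ∉ S →
        (F.nb (Sum.inl (F.X.τ i w)) i, F.rev (Sum.inl (F.X.τ i w)) i) = (Sum.inl v, j) →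
        False := by
      intro w v i j _ hv hn he
      have h1 : F.nb (Sum.inl v) j = Sum.inl (F.X.τ i w) := by
        have := F.nb_nb (Sum.inl (F.X.τ i w)) i
        rw [Prod.mk.injEq] at he
        rwa [he.1, he.2] at this
      rcases F.mid v j with ⟨_, h3⟩ | ⟨b, h2, _⟩
      · rw [h3] at hn
        exact hn hv
      · rw [h2] at h1
        simp at h1
    simp only at heq
    split_ifs at heq with h1 h2 h2
    · have e1 := F.rev_rev (Sum.inl (F.X.τ i w)) i
      have e2 := F.nb_nb (Sum.inl (F.X.τ i w)) i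
      rw [Prod.mk.injEq] at heq
      rw [heq.1, heq.2] at e1 e2
      rw [F.rev_rev] at e1
      rw [F.nb_nb] at e2
      subst e1
      have := congrArg (F.X.τ j) (Sum.inl_injective e2)
      rw [F.X.inv, F.X.inv] at this
      rw [this]
    · exact (mixed w v i j h.1 h'.1 h2 heq).elim
    · exact (mixed v w j i h'.1 h.1 h1 heq.symm).elim
    · rw [Prod.mk.injEq] at heq ⊢
      exact ⟨Sum.inl_injective heq.1, heq.2⟩

/-- The crossing edges. -/
def cross {W : Type} (G : SimpleGraph W) (S : Set W) : Set (Sym2 W) :=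
  {e ∈ G.edgeSet | ∃ x ∈ S, ∃ y ∉ S, e = s(x, y)}

theorem cross_compl {W : Type} (G : SimpleGraph W) (S : Set W) : cross G Sᶜ = cross G S := by
  ext e
  constructor
  · rintro ⟨h, x, hx, y, hy, rfl⟩
    exact ⟨h, y, not_not.1 hy, x, hx, Sym2.eq_swap⟩
  · rintro ⟨h, x, hx, y, hy, rfl⟩
    exact ⟨h, y, hy, x, not_not.2 hx, Sym2.eq_swap⟩

open Classical in
theorem Far.le_cross (S : Set (V ⊕ Bool)) :
    #{p : (V ⊕ Bool) × ZMod 3 | p.1 ∈ S ∧ F.nb p.1 p.2 ∉ S} ≤ (cross F.G S).ncard := by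
  rw [← Set.ncard_coe_finset]
  apply Set.ncard_le_ncard_of_injOn (fun p => s(p.1, F.nb p.1 p.2))
  · rintro ⟨x, i⟩ h
    rw [mem_coe, mem_filter] at h
    exact ⟨F.adj_nb x i, x, h.2.1, _, h.2.2, rfl⟩
  · rintro ⟨x, i⟩ h ⟨y, j⟩ h' heq
    rw [mem_coe, mem_filter] at h h'
    rcases Sym2.eq_iff.1 heq with ⟨h1, h2⟩ | ⟨h1, h2⟩
    · simp only at h1 h2
      subst h1
      rw [F.nb_inj _ h2]
    · simp only at h1 h2
      exfalso
      apply h'.2.2
      simp only
      rw [← h1]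
      exact h.2.1

open Classical in
theorem Far.cyclically (ht : F.X.Trans) (hk : 6 ≤ F.k) (hD : 3 * F.k ≤ F.D + 3) :
    CyclicallyConnected F.G F.k := by
  have hc : ∀ u v, F.X.Reach u v := fun u v => (F.conn u).symm.trans (F.conn v)
  have hle : ∀ S : Set (V ⊕ Bool), F.X.δ ({w | Sum.inl w ∈ S} : Finset V) ≤ (cross F.G S).ncard :=
    fun S => (F.δ_le S).trans (F.le_cross S)
  have key : ∀ S : Set (V ⊕ Bool), ¬ (F.G.induce S).IsAcyclic →
      ¬ F.X.Cy ({w | Sum.inl w ∈ S} : Finset V) → F.k ≤ (cross F.G S).ncard := by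
    intro S hS hcy
    have hle := hle S
    have h1 : ∃ (v : S) (c : (F.G.induce S).Walk v v), c.IsCycle := by
      by_contra hcon
      apply hS
      intro v c hcc
      exact hcon ⟨v, c, hcc⟩
    obtain ⟨v, c, hcc⟩ := h1
    have h2 : c.length ≤ Fintype.card S := by
      have := List.Nodup.length_le_card hcc.support_nodup
      simpa using this
    have h3 : F.G.egirth ≤ c.length := by
      have h4 := hcc.map (f := (SimpleGraph.Embedding.induce (G := F.G) S).toHom)
        (SimpleGraph.Embedding.induce (G := F.G) S).injective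
      have h5 := SimpleGraph.le_egirth.1 le_rfl _ _ h4
      rw [SimpleGraph.Walk.length_map] at h5
      exact h5
    have h4 : F.k ≤ c.length := by
      exact_mod_cast (F.le_egirth hD).trans h3
    have h5 : Fintype.card S ≤ #({w | Sum.inl w ∈ S} : Finset V) + 2 := by
      have h6 : S.toFinset ⊆ ({w | Sum.inl w ∈ S} : Finset V).map ⟨Sum.inl, Sum.inl_injective⟩ ∪
          (univ : Finset Bool).map ⟨Sum.inr, Sum.inr_injective⟩ := by
        rintro (w | b) hw
        · rw [Set.mem_toFinset] at hw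
          rw [mem_union, mem_map]
          left
          exact ⟨w, by rw [mem_filter]; exact ⟨mem_univ _, hw⟩, rfl⟩
        · rw [mem_union, mem_map, mem_map]
          right
          exact ⟨b, mem_univ _, rfl⟩
      have h7 := (card_le_card h6).trans (card_union_le _ _)
      rw [card_map, card_map, card_univ, Fintype.card_bool, Set.toFinset_card] at h7
      exact h7
    rcases ({w | Sum.inl w ∈ S} : Finset V).eq_empty_or_nonempty with h6 | h6
    · rw [h6, card_empty] at h5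
      omega
    · have := F.good.girth.acyc (by omega) _ h6 hcy
      omega
  intro S h1 h2
  have hco : ({w | Sum.inl w ∈ Sᶜ} : Finset V) = ({w | Sum.inl w ∈ S} : Finset V)ᶜ := by
    ext w
    simp
  change F.k ≤ (cross F.G S).ncard
  by_cases q1 : F.X.Cy ({w | Sum.inl w ∈ S} : Finset V)
  · by_cases q2 : F.X.Cy ({w | Sum.inl w ∈ Sᶜ} : Finset V)
    · rw [hco] at q2
      exact (F.good.girth.cyclic hk ht hc _ q1 q2).trans (hle S)
    · rw [← cross_compl]
      exact key _ h2 (fun h => q2 (by convert h))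
  · exact key _ h1 q1

end Pool.Agent.Helper74_SE
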