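import Mathlib

/-!
# Orientable cellular embeddings of graphs as rotation systems

Definitions used in the statement of `Pool.Agent.Results.MP_f8ee93_co.LargeGirth.result`.
-/

namespace Pool.Agent.Helper74_SE

variable {V : Type}

/-- A rotation system of the simple graph `G`: a permutation `next` of the darts (oriented edges) of
`G` which fixes the source of every dart and permutes the darts with a common source cyclically (in
a single cycle).  For a finite connected graph these are exactly the cellular embeddings of `G` in
closed oriented surfaces, up to orientation preserving homeomorphism (Heffter, Edmonds). -/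
structure Rotation (G : SimpleGraph V) where
  next : Equiv.Perm G.Dart
  fst_next : ∀ d, (next d).fst = d.fst
  cyclic : ∀ d e : G.Dart, d.fst = e.fst → next.SameCycle d e

/-- Face tracing: after the dart `d` the perimeter of the region on one side of `d` continues with
the successor, in the rotation at the head of `d`, of the reversed dart. -/
def Rotation.face {G : SimpleGraph V} (R : Rotation G) : Equiv.Perm G.Dart :=
  (SimpleGraph.Dart.symm_involutive (G := G)).toPerm.trans R.next

/-- The regions are the cycles of the face permutation; every dart occurs in exactly one region,
exactly once.  This is their number. -/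
noncomputable def Rotation.faces {G : SimpleGraph V} (R : Rotation G) : ℕ :=
  Nat.card (Quotient (Equiv.Perm.SameCycle.setoid R.face))

/-- The genus of the surface, by the formula of Euler: vertices - edges + regions = 2 - 2 genus. -/
noncomputable def Rotation.genus {G : SimpleGraph V} (R : Rotation G) : ℚ :=
  (2 - ((Nat.card V : ℚ) - G.edgeSet.ncard + R.faces)) / 2

/-- The perimeter of every region is a circuit: no region traverses an edge twice, i.e. no region
contains a dart and its reverse. -/
def Rotation.CircuitFaces {G : SimpleGraph V} (R : Rotation G) : Prop :=
  ∀ d : G.Dart, ¬ R.face.SameCycle d d.symm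

/-- Cyclic edge connectivity at least `k`: whenever the vertex set is divided in two parts both of
which contain a cycle of `G`, at least `k` edges of `G` join the two parts. -/
def CyclicallyConnected (G : SimpleGraph V) (k : ℕ) : Prop :=
  ∀ S : Set V, ¬ (G.induce S).IsAcyclic → ¬ (G.induce Sᶜ).IsAcyclic →
    k ≤ {e ∈ G.edgeSet | ∃ x ∈ S, ∃ y ∉ S, e = s(x, y)}.ncard

end Pool.Agent.Helper74_SE
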