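import Pool.Agent.Helper74_SE.Tower
import Pool.Agent.Helper74_SE.Defs

/-!
# Adding a long edge

Subdivide two far apart edges of a coloured cubic graph and join the two new vertices.
-/

namespace Pool.Agent.Helper74_SE

/-- A good coloured cubic graph with two far apart vertices. -/
structure Far (V : Type) where
  X : Col V
  k : ℕ
  hk : 3 ≤ k
  good : X.Good k
  pt : Bool → V
  h : V → ℤ
  lip : ∀ i w, h (X.τ i w) ≤ h w + 3
  D : ℕ
  hD : 7 ≤ D
  far : h (pt false) + D ≤ h (pt true)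
  conn : ∀ w, X.Reach (pt false) w

variable {V : Type} (F : Far V)

/-- The neighbour of colour `0` of the marked vertex. -/
def Far.a (b : Bool) : V := F.X.τ 0 (F.pt b)

theorem Far.lip' (i : ZMod 3) (w : V) : F.h w ≤ F.h (F.X.τ i w) + 3 := by
  have := F.lip i (F.X.τ i w)
  rwa [F.X.inv] at this

theorem Far.τa (b : Bool) : F.X.τ 0 (F.a b) = F.pt b := F.X.inv _ _

theorem Far.pt_ne_a (b b' : Bool) : F.pt b ≠ F.a b' := by
  intro h
  have h1 := F.lip 0 (F.pt b')
  have h2 := F.lip' 0 (F.pt b')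
  have h3 : F.h (F.pt b) = F.h (F.X.τ 0 (F.pt b')) := by rw [h]; rfl
  have h4 := F.far
  have h5 := F.hD
  have h6 : (7 : ℤ) ≤ F.D := by exact_mod_cast h5
  cases b <;> cases b'
  · exact F.good.girth.ne_self (by have := F.hk; omega) 0 _ h.symm
  · omega
  · omega
  · exact F.good.girth.ne_self (by have := F.hk; omega) 0 _ h.symm

theorem Far.pt_ne : F.pt false ≠ F.pt true := by
  intro h
  have h4 := F.far
  have h5 := F.hD
  have h6 : (7 : ℤ) ≤ F.D := by exact_mod_cast h5
  rw [h] at h4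
  omega

theorem Far.a_ne : F.a false ≠ F.a true := by
  intro h
  apply F.pt_ne
  rw [← F.τa false, ← F.τa true, h]

/-- The vertex `w` is an end of the subdivided edge number `b`. -/
def Far.Sp (b : Bool) (w : V) : Prop := w = F.pt b ∨ w = F.a b

theorem Far.sp_unique {b b' : Bool} {w : V} (h : F.Sp b w) (h' : F.Sp b' w) : b = b' := by
  have h1 := F.pt_ne
  have h2 := F.a_ne
  rcases h with h | h <;> rcases h' with h' | h' <;> cases b <;> cases b' <;>
    first
    | rfl
    | exact absurd (h.symm.trans h') h1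
    | exact absurd (h'.symm.trans h) h1
    | exact absurd (h.symm.trans h') h2
    | exact absurd (h'.symm.trans h) h2
    | exact absurd (h.symm.trans h') (F.pt_ne_a _ _)
    | exact absurd (h'.symm.trans h) (F.pt_ne_a _ _)

theorem Far.sp_τ {b : Bool} {w : V} (h : F.Sp b w) : F.Sp b (F.X.τ 0 w) := by
  rcases h with rfl | rfl
  · exact Or.inr rfl
  · exact Or.inl (F.τa b)

theorem Far.sp_τ_iff {b : Bool} {w : V} : F.Sp b (F.X.τ 0 w) ↔ F.Sp b w :=
  ⟨fun h => by have := F.sp_τ h; rwa [F.X.inv] at this, F.sp_τ⟩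

open Classical in
/-- The neighbour through port `i`. -/
noncomputable def Far.nb : V ⊕ Bool → ZMod 3 → V ⊕ Bool
  | Sum.inl w, i => if i = 0 then
      (if F.Sp false w then Sum.inr false else if F.Sp true w then Sum.inr true
        else Sum.inl (F.X.τ 0 w)) else Sum.inl (F.X.τ i w)
  | Sum.inr b, i => if i = 0 then Sum.inr (!b) else if i = 1 then Sum.inl (F.a b)
      else Sum.inl (F.pt b)

open Classical in
/-- The port at the other end. -/
noncomputable def Far.rev : V ⊕ Bool → ZMod 3 → ZMod 3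
  | Sum.inl w, i => if i = 0 then
      (if w = F.pt false ∨ w = F.pt true then 2 else if w = F.a false ∨ w = F.a true then 1 else 0)
      else i
  | Sum.inr _, _ => 0

open Classical in
theorem Far.nb_inl (w : V) (i : ZMod 3) : F.nb (Sum.inl w) i = if i = 0 then
      (if F.Sp false w then Sum.inr false else if F.Sp true w then Sum.inr true
        else Sum.inl (F.X.τ 0 w)) else Sum.inl (F.X.τ i w) := rfl

theorem Far.nb_inr (b : Bool) (i : ZMod 3) : F.nb (Sum.inr b) i =
    if i = 0 then Sum.inr (!b) else if i = 1 then Sum.inl (F.a b) else Sum.inl (F.pt b) := rfl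

open Classical in
theorem Far.rev_inl (w : V) (i : ZMod 3) : F.rev (Sum.inl w) i = if i = 0 then
      (if w = F.pt false ∨ w = F.pt true then 2 else if w = F.a false ∨ w = F.a true then 1 else 0)
      else i := rfl

theorem Far.nb_sp {b : Bool} {w : V} (h : F.Sp b w) : F.nb (Sum.inl w) 0 = Sum.inr b := by
  rw [F.nb_inl]
  rw [if_pos rfl]
  cases b
  · rw [if_pos h]
  · rw [if_neg (fun h' => by simpa using F.sp_unique h h'), if_pos h]

theorem Far.nb_nsp {w : V} (h : ∀ b, ¬ F.Sp b w) : F.nb (Sum.inl w) 0 = Sum.inl (F.X.τ 0 w) := by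
  rw [F.nb_inl]
  rw [if_pos rfl, if_neg (h _), if_neg (h _)]

theorem Far.nb_ne {w : V} {i : ZMod 3} (h : i ≠ 0) : F.nb (Sum.inl w) i = Sum.inl (F.X.τ i w) := by
  rw [F.nb_inl]
  rw [if_neg h]

theorem Far.nb_r0 (b : Bool) : F.nb (Sum.inr b) 0 = Sum.inr (!b) := by simp [Far.nb]
theorem Far.nb_r1 (b : Bool) : F.nb (Sum.inr b) 1 = Sum.inl (F.a b) := by
  rw [F.nb_inr, if_neg (by decide), if_pos rfl]
theorem Far.nb_r2 (b : Bool) : F.nb (Sum.inr b) 2 = Sum.inl (F.pt b) := by
  rw [F.nb_inr, if_neg (by decide), if_neg (by decide)]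

theorem Far.rev_pt (b : Bool) : F.rev (Sum.inl (F.pt b)) 0 = 2 := by
  rw [F.rev_inl]
  rw [if_pos rfl, if_pos (by cases b <;> simp)]

theorem Far.rev_a (b : Bool) : F.rev (Sum.inl (F.a b)) 0 = 1 := by
  rw [F.rev_inl]
  rw [if_pos rfl, if_neg, if_pos (by cases b <;> simp)]
  rintro (h | h)
  · exact F.pt_ne_a _ _ h.symm
  · exact F.pt_ne_a _ _ h.symm

theorem Far.rev_nsp {w : V} (h : ∀ b, ¬ F.Sp b w) : F.rev (Sum.inl w) 0 = 0 := by
  rw [F.rev_inl]
  rw [if_pos rfl, if_neg, if_neg]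
  · rintro (h' | h')
    · exact h false (Or.inr h')
    · exact h true (Or.inr h')
  · rintro (h' | h')
    · exact h false (Or.inl h')
    · exact h true (Or.inl h')

theorem Far.rev_ne {w : V} {i : ZMod 3} (h : i ≠ 0) : F.rev (Sum.inl w) i = i := by
  rw [F.rev_inl]
  rw [if_neg h]

theorem Far.rev_r (b : Bool) (i : ZMod 3) : F.rev (Sum.inr b) i = 0 := rfl

theorem three (i : ZMod 3) : i = 0 ∨ i = 1 ∨ i = 2 := by revert i; decide

theorem Far.cases_sp (w : V) : (∃ b, w = F.pt b) ∨ (∃ b, w = F.a b) ∨ ∀ b, ¬ F.Sp b w := by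
  by_cases h : ∃ b, F.Sp b w
  · obtain ⟨b, h | h⟩ := h
    · exact Or.inl ⟨b, h⟩
    · exact Or.inr (Or.inl ⟨b, h⟩)
  · exact Or.inr (Or.inr (not_exists.1 h))

theorem Far.nb_nb (x : V ⊕ Bool) (i : ZMod 3) : F.nb (F.nb x i) (F.rev x i) = x := by
  rcases x with w | b
  · by_cases hi : i = 0
    · subst hi
      rcases F.cases_sp w with ⟨b, rfl⟩ | ⟨b, rfl⟩ | h
      · rw [F.nb_sp (b := b) (Or.inl rfl), F.rev_pt, F.nb_r2]
      · rw [F.nb_sp (b := b) (Or.inr rfl), F.rev_a, F.nb_r1]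
      · rw [F.nb_nsp h, F.rev_nsp h, F.nb_nsp (fun b h' => h b (F.sp_τ_iff.1 h')), F.X.inv]
    · rw [F.nb_ne hi, F.rev_ne hi, F.nb_ne hi, F.X.inv]
  · rw [F.rev_r]
    rcases three i with rfl | rfl | rfl
    · rw [F.nb_r0, F.nb_r0, Bool.not_not]
    · rw [F.nb_r1, F.nb_sp (b := b) (Or.inr rfl)]
    · rw [F.nb_r2, F.nb_sp (b := b) (Or.inl rfl)]

theorem Far.rev_rev (x : V ⊕ Bool) (i : ZMod 3) : F.rev (F.nb x i) (F.rev x i) = i := by
  rcases x with w | b
  · by_cases hi : i = 0
    · subst hi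
      rcases F.cases_sp w with ⟨b, rfl⟩ | ⟨b, rfl⟩ | h
      · rw [F.nb_sp (b := b) (Or.inl rfl), F.rev_r]
      · rw [F.nb_sp (b := b) (Or.inr rfl), F.rev_r]
      · rw [F.nb_nsp h, F.rev_nsp h, F.rev_nsp (fun b h' => h b (F.sp_τ_iff.1 h'))]
    · rw [F.nb_ne hi, F.rev_ne hi, F.rev_ne hi]
  · rw [F.rev_r]
    rcases three i with rfl | rfl | rfl
    · rw [F.nb_r0, F.rev_r]
    · rw [F.nb_r1, F.rev_a]
    · rw [F.nb_r2, F.rev_pt]

theorem Far.nb_inj (x : V ⊕ Bool) {i j : ZMod 3} (h : F.nb x i = F.nb x j) : i = j := by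
  have hg := F.good.girth
  have key : ∀ (i j : ZMod 3) (w : V), F.X.τ i w = F.X.τ j w → i = j := fun i j w h => by
    by_contra hij
    exact hg.ne_of_ne F.hk hij w h
  rcases x with w | b
  · by_cases hi : i = 0 <;> by_cases hj : j = 0
    · rw [hi, hj]
    · subst hi
      rw [F.nb_ne hj] at h
      by_cases hs : ∃ b, F.Sp b w
      · obtain ⟨b, hs⟩ := hs
        rw [F.nb_sp hs] at h
        simp at h
      · rw [F.nb_nsp (not_exists.1 hs)] at h
        exact key _ _ w (Sum.inl_injective h)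
    · subst hj
      rw [F.nb_ne hi] at h
      by_cases hs : ∃ b, F.Sp b w
      · obtain ⟨b, hs⟩ := hs
        rw [F.nb_sp hs] at h
        simp at h
      · rw [F.nb_nsp (not_exists.1 hs)] at h
        exact key _ _ w (Sum.inl_injective h)
    · rw [F.nb_ne hi, F.nb_ne hj] at h
      exact key _ _ w (Sum.inl_injective h)
  · rcases three i with rfl | rfl | rfl <;> rcases three j with rfl | rfl | rfl <;>
      simp only [F.nb_r0, F.nb_r1, F.nb_r2] at h <;>
      first
      | rfl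
      | exact absurd (Sum.inl_injective h).symm (F.pt_ne_a _ _)
      | exact absurd (Sum.inl_injective h) (F.pt_ne_a _ _)
      | (simp at h)

theorem Far.nb_ne_self (x : V ⊕ Bool) (i : ZMod 3) : F.nb x i ≠ x := by
  have hg := F.good.girth
  have key : ∀ (i : ZMod 3) (w : V), F.X.τ i w ≠ w := hg.ne_self (by have := F.hk; omega)
  rcases x with w | b
  · by_cases hi : i = 0
    · subst hi
      by_cases hs : ∃ b, F.Sp b w
      · obtain ⟨b, hs⟩ := hs
        rw [F.nb_sp hs]
        simp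
      · rw [F.nb_nsp (not_exists.1 hs)]
        exact fun h => key _ _ (Sum.inl_injective h)
    · rw [F.nb_ne hi]
      exact fun h => key _ _ (Sum.inl_injective h)
  · rcases three i with rfl | rfl | rfl
    · rw [F.nb_r0]; simp
    · rw [F.nb_r1]; simp
    · rw [F.nb_r2]; simp

/-- The graph. -/
def Far.G : SimpleGraph (V ⊕ Bool) where
  Adj x y := ∃ i, F.nb x i = y
  symm := ⟨by rintro x _ ⟨i, rfl⟩; exact ⟨F.rev x i, F.nb_nb x i⟩⟩
  loopless := ⟨by rintro x ⟨i, h⟩; exact F.nb_ne_self x i h⟩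

theorem Far.adj_nb (x : V ⊕ Bool) (i : ZMod 3) : F.G.Adj x (F.nb x i) := ⟨i, rfl⟩

/-- Darts are vertices with ports. -/
noncomputable def Far.E : (V ⊕ Bool) × ZMod 3 ≃ F.G.Dart :=
  Equiv.ofBijective (fun p => ⟨(p.1, F.nb p.1 p.2), F.adj_nb p.1 p.2⟩) (by
    constructor
    · rintro ⟨x, i⟩ ⟨y, j⟩ h
      have h' := (SimpleGraph.Dart.ext_iff _ _).1 h
      have h1 : x = y := (Prod.ext_iff.1 h').1
      subst h1
      have h2 : F.nb x i = F.nb x j := (Prod.ext_iff.1 h').2
      rw [F.nb_inj x h2]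
    · rintro ⟨⟨x, y⟩, h⟩
      obtain ⟨i, hi⟩ : ∃ i, F.nb x i = y := h
      refine ⟨(x, i), ?_⟩
      rw [SimpleGraph.Dart.ext_iff]
      exact Prod.ext rfl hi)

theorem Far.E_fst (p : (V ⊕ Bool) × ZMod 3) : (F.E p).fst = p.1 := rfl
theorem Far.E_snd (p : (V ⊕ Bool) × ZMod 3) : (F.E p).snd = F.nb p.1 p.2 := rfl

theorem Far.E_symm (p : (V ⊕ Bool) × ZMod 3) : (F.E p).symm = F.E (F.nb p.1 p.2, F.rev p.1 p.2) := by
  rw [SimpleGraph.Dart.ext_iff]
  exact Prod.ext rfl (F.nb_nb p.1 p.2).symm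

theorem Far.fst_E (d : F.G.Dart) : (F.E.symm d).1 = d.fst := by
  conv_rhs => rw [← F.E.apply_symm_apply d]
  rfl

theorem Far.ncard_neighborSet (x : V ⊕ Bool) : (F.G.neighborSet x).ncard = 3 := by
  have h1 : F.G.neighborSet x = Set.range (F.nb x) := by
    ext y; rfl
  rw [h1, ← Set.image_univ, Set.ncard_image_of_injective _ (fun i j h => F.nb_inj x h),
    Set.ncard_univ, Nat.card_eq_fintype_card, ZMod.card]

/-- The shift of the ports. -/
def rot (W : Type) : Equiv.Perm (W × ZMod 3) where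
  toFun p := (p.1, p.2 + 1)
  invFun p := (p.1, p.2 - 1)
  left_inv p := by simp
  right_inv p := by simp

theorem rot_pow (W : Type) (n : ℕ) (p : W × ZMod 3) : ((rot W) ^ n) p = (p.1, p.2 + n) := by
  induction n with
  | zero => simp
  | succ n ih =>
    rw [pow_succ', Equiv.Perm.mul_apply, ih]
    simp [rot, add_assoc]

/-- The rotation system with one region less than the colour embedding. -/
noncomputable def Far.R₀ : Rotation F.G where
  next := (F.E.symm.trans (rot _)).trans F.E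
  fst_next d := by
    simp only [Equiv.trans_apply, F.E_fst, rot, Equiv.coe_fn_mk]
    exact F.fst_E d
  cyclic d e hde := by
    refine ⟨(((F.E.symm e).2 - (F.E.symm d).2).val : ℕ), ?_⟩
    rw [zpow_natCast]
    have : ∀ n : ℕ, (((F.E.symm.trans (rot _)).trans F.E) ^ n) d = F.E (((rot _) ^ n) (F.E.symm d)) := by
      intro n
      induction n with
      | zero => simp
      | succ n ih =>
        rw [pow_succ', Equiv.Perm.mul_apply, ih, pow_succ', Equiv.Perm.mul_apply]
        simp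
    rw [this, rot_pow, ZMod.natCast_val, ZMod.cast_id', id, add_sub_cancel]
    have h1 : ((F.E.symm d).1, (F.E.symm e).2) = F.E.symm e := by
      rw [F.fst_E, hde, ← F.fst_E]
    rw [h1, Equiv.apply_symm_apply]

theorem Far.R₀_face (x : V ⊕ Bool) (i : ZMod 3) :
    F.R₀.face (F.E (x, i)) = F.E (F.nb x i, F.rev x i + 1) := by
  unfold Rotation.face
  simp only [Equiv.trans_apply, Function.Involutive.coe_toPerm]
  rw [F.E_symm]
  simp [Far.R₀, rot]

end Pool.Agent.Helper74_SE
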