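import Mathlib

/-!
# Three-edge-coloured cubic graphs and their mod 2 covers

A closed non-backtracking walk upstairs uses every edge an even number of times, hence its length
is at least twice the girth of the base.  The length of every face is exactly doubled.
-/

namespace Pool.Agent.Helper74_SE

/-- A cubic graph with a proper edge colouring by `ZMod 3`: `τ i v` is the other end of the edge of
colour `i` at `v`. -/
structure Col (V : Type) where
  τ : ZMod 3 → V → V
  inv : ∀ i v, τ i (τ i v) = v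

variable {V : Type}

/-- Non-backtracking walks with `b` steps. -/
def Col.NB (X : Col V) (b : ℕ) (v : ℕ → V) (c : ℕ → ZMod 3) : Prop :=
  (∀ n < b, v (n + 1) = X.τ (c n) (v n)) ∧ (∀ n, n + 1 < b → c (n + 1) ≠ c n)

/-- Every closed non-backtracking walk has at least `k` steps. -/
def Col.Girth (X : Col V) (k : ℕ) : Prop :=
  ∀ b v c, 0 < b → X.NB b v c → v b = v 0 → k ≤ b

/-- The face permutation. -/
def Col.φ (X : Col V) (d : V × ZMod 3) : V × ZMod 3 := (X.τ d.2 d.1, d.2 + 1)

structure Col.Good (X : Col V) (k : ℕ) : Prop where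
  girth : X.Girth k
  face : ∀ d, X.φ^[k] d = d

theorem Col.NB.shift {X : Col V} {b : ℕ} {v : ℕ → V} {c : ℕ → ZMod 3} (h : X.NB b v c)
    {i m : ℕ} (him : i + m ≤ b) : X.NB m (fun n => v (i + n)) (fun n => c (i + n)) :=
  ⟨fun n hn => h.1 (i + n) (by omega), fun n hn => h.2 (i + n) (by omega)⟩

/-- A minimal closed piece. -/
theorem exists_piece {b : ℕ} {v : ℕ → V} (hb : 0 < b) (hv : v b = v 0) :
    ∃ i m, 0 < m ∧ i + m ≤ b ∧ v (i + m) = v i ∧
      ∀ s t, i ≤ s → s < t → t ≤ i + m → v s = v t → s = i ∧ t = i + m := by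
  classical
  have hex : ∃ m, 0 < m ∧ ∃ i, i + m ≤ b ∧ v (i + m) = v i := ⟨b, hb, 0, by omega, by simpa using hv⟩
  obtain ⟨hm, i, him, hvi⟩ := Nat.find_spec hex
  refine ⟨i, Nat.find hex, hm, him, hvi, fun s t hs hst ht hvst => ?_⟩
  have h1 : Nat.find hex ≤ t - s := by
    apply Nat.find_min' hex
    exact ⟨by omega, s, by omega, by rw [show s + (t - s) = t by omega]; exact hvst.symm⟩
  omega

theorem Col.Girth.ne_self {X : Col V} {k : ℕ} (hX : X.Girth k) (hk : 2 ≤ k) (i : ZMod 3) (v : V) :
    X.τ i v ≠ v := by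
  intro h
  have := hX 1 (fun _ => v) (fun _ => i) (by norm_num)
    ⟨fun n _ => h.symm, fun n hn => by omega⟩ rfl
  omega

theorem Col.Girth.ne_of_ne {X : Col V} {k : ℕ} (hX : X.Girth k) (hk : 3 ≤ k) {i j : ZMod 3}
    (hij : i ≠ j) (v : V) : X.τ i v ≠ X.τ j v := by
  intro h
  have := hX 2 (fun n => if n = 1 then v else X.τ i v) (fun n => if n = 0 then i else j)
    (by norm_num) ⟨fun n hn => ?_, fun n hn => ?_⟩ (by simp)
  · omega
  · have : n = 0 ∨ n = 1 := by omega
    rcases this with rfl | rfl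
    · simp [X.inv]
    · simp [h]
  · have : n = 0 := by omega
    subst this
    simpa using hij.symm

section Cover

open Classical in
/-- The edge of colour `i` at `v` as a vector. -/
noncomputable def Col.ε (X : Col V) (v : V) (i : ZMod 3) : V × ZMod 3 → ZMod 2 :=
  fun e => (if e = (v, i) then 1 else 0) + (if e = (X.τ i v, i) then 1 else 0)

theorem Col.ε_inv (X : Col V) (v : V) (i : ZMod 3) : X.ε (X.τ i v) i = X.ε v i := by
  funext e
  unfold Col.ε
  rw [X.inv, add_comm]

theorem add_self_two {α : Type} (s : α → ZMod 2) : s + s = 0 := by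
  funext e
  exact CharTwo.add_self_eq_zero _

/-- The mod 2 cover. -/
noncomputable def Col.cover (X : Col V) : Col (V × (V × ZMod 3 → ZMod 2)) where
  τ i p := (X.τ i p.1, p.2 + X.ε p.1 i)
  inv i p := by
    ext1
    · exact X.inv i p.1
    · simp only [Col.ε_inv, add_assoc, add_self_two, add_zero]

theorem cover_sum (X : Col V) {b : ℕ} {v : ℕ → V × (V × ZMod 3 → ZMod 2)} {c : ℕ → ZMod 3}
    (h : X.cover.NB b v c) : ∀ n ≤ b, (v n).2 = (v 0).2 + ∑ m ∈ Finset.range n, X.ε (v m).1 (c m) := by
  intro n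
  induction n with
  | zero => intro _; simp
  | succ n ih =>
    intro hn
    rw [h.1 n (by omega), Finset.sum_range_succ, ← add_assoc, ← ih (by omega)]
    rfl

theorem cover_proj (X : Col V) {b : ℕ} {v : ℕ → V × (V × ZMod 3 → ZMod 2)} {c : ℕ → ZMod 3}
    (h : X.cover.NB b v c) : X.NB b (fun n => (v n).1) c :=
  ⟨fun n hn => congrArg Prod.fst (h.1 n hn), h.2⟩

open Classical in
theorem cover_girth (X : Col V) {k : ℕ} (hk : 2 ≤ k) (hX : X.Girth k) : X.cover.Girth (2 * k) := by
  intro b v c hb hnb hcl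
  have hp := cover_proj X hnb
  have hcl1 : (v b).1 = (v 0).1 := by rw [hcl]
  obtain ⟨i, m, hm, him, hvi, hmin⟩ := exists_piece (v := fun n => (v n).1) hb hcl1
  have hkm : k ≤ m := hX m _ _ hm (hp.shift him) (by simpa using hvi)
  -- every edge is used an even number of times
  set R : V × ZMod 3 → Finset ℕ := fun e => (Finset.range b).filter
    (fun n => e = ((v n).1, c n) ∨ e = (X.τ (c n) (v n).1, c n)) with hR
  have heven : ∀ e, Even (R e).card := by
    intro e
    have h1 := cover_sum X hnb b le_rfl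
    rw [hcl] at h1
    have h2 : ∑ m ∈ Finset.range b, X.ε (v m).1 (c m) = 0 := by
      simpa using h1
    have h3 := congrFun h2 e
    rw [Finset.sum_apply] at h3
    have h4 : ∀ n ∈ Finset.range b, X.ε (v n).1 (c n) e =
        if (e = ((v n).1, c n) ∨ e = (X.τ (c n) (v n).1, c n)) then (1 : ZMod 2) else 0 := by
      intro n _
      unfold Col.ε
      by_cases ha : e = ((v n).1, c n)
      · by_cases hb' : e = (X.τ (c n) (v n).1, c n)
        · exfalso
          rw [ha] at hb'
          exact hX.ne_self hk (c n) (v n).1 (Prod.ext_iff.1 hb').1.symm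
        · rw [if_pos ha, if_neg hb', if_pos (Or.inl ha), add_zero]
      · by_cases hb' : e = (X.τ (c n) (v n).1, c n)
        · rw [if_neg ha, if_pos hb', if_pos (Or.inr hb'), zero_add]
        · rw [if_neg ha, if_neg hb', if_neg (by tauto), zero_add]
    rw [Finset.sum_congr rfl h4, Finset.sum_ite, Finset.sum_const_zero, add_zero,
      Finset.sum_const, nsmul_eq_mul, mul_one] at h3
    exact (ZMod.natCast_eq_zero_iff_even).1 h3
  have htwo : ∀ t ∈ Finset.Ico i (i + m), 2 ≤ (R ((v t).1, c t)).card := by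
    intro t ht
    rw [Finset.mem_Ico] at ht
    have hmem : t ∈ R ((v t).1, c t) := by
      rw [hR, Finset.mem_filter, Finset.mem_range]
      exact ⟨by omega, Or.inl rfl⟩
    have hpos : 0 < (R ((v t).1, c t)).card := Finset.card_pos.2 ⟨t, hmem⟩
    obtain ⟨r, hr⟩ := heven ((v t).1, c t)
    omega
  have hne : ∀ t t', i ≤ t → t < t' → t' < i + m → ∀ n ∈ R ((v t).1, c t),
      n ∉ R ((v t').1, c t') := by
    intro t t' ht htt ht' n hn hn'
    simp only [hR, Finset.mem_filter, Finset.mem_range] at hn hn'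
    have hc : c t = c n := by
      rcases hn.2 with h | h <;> exact (Prod.ext_iff.1 h).2
    have hc' : c t' = c n := by
      rcases hn'.2 with h | h <;> exact (Prod.ext_iff.1 h).2
    have hv1 : (v t).1 = (v n).1 ∨ (v t).1 = X.τ (c n) (v n).1 := by
      rcases hn.2 with h | h
      · exact Or.inl (Prod.ext_iff.1 h).1
      · exact Or.inr (Prod.ext_iff.1 h).1
    have hv2 : (v t').1 = (v n).1 ∨ (v t').1 = X.τ (c n) (v n).1 := by
      rcases hn'.2 with h | h
      · exact Or.inl (Prod.ext_iff.1 h).1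
      · exact Or.inr (Prod.ext_iff.1 h).1
    have hstep : (v (t + 1)).1 = X.τ (c n) (v t).1 := by
      have := hp.1 t (by omega)
      rw [hc] at this
      exact this
    have key : (v t').1 = (v t).1 ∨ (v t').1 = (v (t + 1)).1 := by
      rw [hstep]
      rcases hv1 with h1 | h1 <;> rcases hv2 with h2 | h2
      · left; rw [h2, h1]
      · right; rw [h2, h1]
      · right; rw [h2, h1, X.inv]
      · left; rw [h2, h1]
    rcases key with h | h
    · have := hmin t t' ht htt (by omega) h.symm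
      omega
    · rcases Nat.lt_or_ge (t + 1) t' with h3 | h3
      · have := hmin (t + 1) t' (by omega) h3 (by omega) h.symm
        omega
      · have h4 : t' = t + 1 := by omega
        subst h4
        exact hp.2 t (by omega) (by rw [hc', hc])
  have hdisj : Set.PairwiseDisjoint (↑(Finset.Ico i (i + m)) : Set ℕ)
      (fun t => R ((v t).1, c t)) := by
    intro t ht t' ht' htt
    simp only [Finset.coe_Ico, Set.mem_Ico] at ht ht'
    rw [Function.onFun, Finset.disjoint_left]
    rcases Nat.lt_or_gt_of_ne htt with h | h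
    · exact hne t t' ht.1 h ht'.2
    · intro n hn hn'
      exact hne t' t ht'.1 h ht.2 n hn' hn
  have hcard := Finset.card_biUnion (s := Finset.Ico i (i + m)) (t := fun t => R ((v t).1, c t))
    (fun x hx y hy hxy => hdisj hx hy hxy)
  have hsub : (Finset.Ico i (i + m)).biUnion (fun t => R ((v t).1, c t)) ⊆ Finset.range b := by
    intro n hn
    rw [Finset.mem_biUnion] at hn
    obtain ⟨t, _, hn⟩ := hn
    simp only [hR, Finset.mem_filter] at hn
    exact hn.1
  have h5 := Finset.card_le_card hsub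
  rw [hcard, Finset.card_range] at h5
  have h6 : ∑ t ∈ Finset.Ico i (i + m), 2 ≤ ∑ t ∈ Finset.Ico i (i + m), (R ((v t).1, c t)).card :=
    Finset.sum_le_sum htwo
  rw [Finset.sum_const, Nat.card_Ico] at h6
  simp only [smul_eq_mul] at h6
  omega

theorem cover_φ_iter (X : Col V) (n : ℕ) (v : V) (s : V × ZMod 3 → ZMod 2) (i : ZMod 3) :
    X.cover.φ^[n] ((v, s), i) =
      (((X.φ^[n] (v, i)).1, s + ∑ m ∈ Finset.range n, X.ε (X.φ^[m] (v, i)).1 (X.φ^[m] (v, i)).2),
        (X.φ^[n] (v, i)).2) := by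
  induction n with
  | zero => simp
  | succ n ih =>
    rw [Function.iterate_succ_apply', ih, Function.iterate_succ_apply', Finset.sum_range_succ,
      ← add_assoc]
    rfl

theorem cover_good (X : Col V) {k : ℕ} (hk : 2 ≤ k) (hX : X.Good k) : X.cover.Good (2 * k) := by
  refine ⟨cover_girth X hk hX.girth, ?_⟩
  rintro ⟨⟨v, s⟩, i⟩
  rw [two_mul, Function.iterate_add_apply, cover_φ_iter X k, hX.face, cover_φ_iter X k, hX.face]
  simp only [add_assoc, add_self_two, add_zero]

/-- Connection by a walk. -/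
def Col.Reach (X : Col V) (u v : V) : Prop := Relation.ReflTransGen (fun a b => ∃ i, X.τ i a = b) u v

theorem cover_reach (X : Col V) {u v : V} (h : X.Reach u v) (s : V × ZMod 3 → ZMod 2) :
    ∃ s', X.cover.Reach (u, s) (v, s') := by
  induction h with
  | refl => exact ⟨s, Relation.ReflTransGen.refl⟩
  | tail _ hbc ih =>
    obtain ⟨s', hs'⟩ := ih
    obtain ⟨i, rfl⟩ := hbc
    exact ⟨_, hs'.tail ⟨i, rfl⟩⟩

/-- Colour preserving automorphisms act transitively on the vertices. -/
def Col.Trans (X : Col V) : Prop :=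
  ∀ u v, ∃ θ : V ≃ V, (∀ i w, θ (X.τ i w) = X.τ i (θ w)) ∧ θ u = v

open Classical in
theorem cover_trans (X : Col V) (hX : X.Trans) : X.cover.Trans := by
  rintro ⟨u, s⟩ ⟨v, s'⟩
  obtain ⟨θ, hθ, huv⟩ := hX u v
  let Θ : V × ZMod 3 → V × ZMod 3 := fun e => (θ.symm e.1, e.2)
  let Θ' : V × ZMod 3 → V × ZMod 3 := fun e => (θ e.1, e.2)
  have hΘ : ∀ e, Θ (Θ' e) = e := fun e => by simp [Θ, Θ']
  have hΘ' : ∀ e, Θ' (Θ e) = e := fun e => by simp [Θ, Θ']
  have hε : ∀ w i e, X.ε (θ w) i e = X.ε w i (Θ e) := by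
    intro w i e
    have h1 : ∀ w, (e = (θ w, i)) ↔ (Θ e = (w, i)) := by
      intro w
      constructor
      · rintro rfl; simp [Θ]
      · intro h
        have := congrArg Θ' h
        rw [hΘ'] at this
        exact this
    have e1 : (e = (θ w, i)) = (Θ e = (w, i)) := propext (h1 w)
    have e2 : (e = (X.τ i (θ w), i)) = (Θ e = (X.τ i w, i)) := by
      rw [← hθ]; exact propext (h1 _)
    unfold Col.ε
    exact congrArg₂ (· + ·) (if_congr (Iff.of_eq e1) rfl rfl) (if_congr (Iff.of_eq e2) rfl rfl)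
  let t : V × ZMod 3 → ZMod 2 := fun e => s' e + s (Θ e)
  let Ψ : V × (V × ZMod 3 → ZMod 2) ≃ V × (V × ZMod 3 → ZMod 2) :=
    { toFun := fun p => (θ p.1, fun e => p.2 (Θ e) + t e)
      invFun := fun p => (θ.symm p.1, fun e => p.2 (Θ' e) + t (Θ' e))
      left_inv := by
        rintro ⟨w, r⟩
        refine Prod.ext (by simp) ?_
        funext e
        show (r (Θ (Θ' e)) + t (Θ' e)) + t (Θ' e) = r e
        rw [hΘ, add_assoc, CharTwo.add_self_eq_zero, add_zero]
      right_inv := by
        rintro ⟨w, r⟩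
        refine Prod.ext (by simp) ?_
        funext e
        show (r (Θ' (Θ e)) + t (Θ' (Θ e))) + t e = r e
        rw [hΘ', add_assoc, CharTwo.add_self_eq_zero, add_zero] }
  refine ⟨Ψ, ?_, ?_⟩
  · rintro i ⟨w, r⟩
    refine Prod.ext (hθ i w) ?_
    funext e
    show (r (Θ e) + X.ε w i (Θ e)) + t e = (r (Θ e) + t e) + X.ε (θ w) i e
    rw [hε]
    ring
  · refine Prod.ext huv ?_
    funext e
    show s (Θ e) + (s' e + s (Θ e)) = s' e
    rw [add_comm (s' e), ← add_assoc, CharTwo.add_self_eq_zero, zero_add]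

theorem Col.Reach.symm {X : Col V} {u v : V} (h : X.Reach u v) : X.Reach v u := by
  induction h with
  | refl => exact Relation.ReflTransGen.refl
  | tail _ hbc ih =>
    obtain ⟨i, rfl⟩ := hbc
    exact Relation.ReflTransGen.head ⟨i, X.inv i _⟩ ih

theorem Col.Reach.map {X : Col V} {θ : V → V} (hθ : ∀ i w, θ (X.τ i w) = X.τ i (θ w)) {u v : V}
    (h : X.Reach u v) : X.Reach (θ u) (θ v) := by
  induction h with
  | refl => exact Relation.ReflTransGen.refl
  | tail _ hbc ih =>
    obtain ⟨i, rfl⟩ := hbc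
    exact ih.tail ⟨i, (hθ i _).symm⟩

end Cover

end Pool.Agent.Helper74_SE
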