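import Pool.Agent.Helper74_SE.Graph

/-!
# Closed non-backtracking walks in the graph with the long edge
-/

namespace Pool.Agent.Helper74_SE

variable {V : Type} (F : Far V)

/-- A non-backtracking step. -/
def Far.Nx (p q : (V ⊕ Bool) × ZMod 3) : Prop := q.1 = F.nb p.1 p.2 ∧ q.2 ≠ F.rev p.1 p.2

/-- The two darts of the long edge. -/
def IsLong (p : (V ⊕ Bool) × ZMod 3) : Prop := ∃ b, p = (Sum.inr b, 0)

theorem Far.extract (n : ℕ) : ∀ (x : ℕ → (V ⊕ Bool) × ZMod 3), (∀ m, F.Nx (x m) (x (m + 1))) →
    (∀ m, ¬ IsLong (x m)) → ∀ w w' i, x 0 = (Sum.inl w, i) → (x n).1 = Sum.inl w' →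
    ∃ m ≤ n, (0 < n → 0 < m) ∧ ∃ (v : ℕ → V) (c : ℕ → ZMod 3), F.X.NB m v c ∧ v 0 = w ∧ v m = w' ∧
      (0 < m → c 0 = i) := by
  induction n using Nat.strong_induction_on with
  | _ n ih =>
    intro x hx hl w w' i h0 hn
    rcases Nat.eq_zero_or_pos n with rfl | hpos
    · refine ⟨0, le_rfl, fun h => h, fun _ => w, fun _ => i,
        ⟨fun n hn => by omega, fun n hn => by omega⟩, rfl, ?_, fun h => by omega⟩
      rw [h0] at hn
      exact Sum.inl_injective hn
    · -- the prepending construction
      have prepend : ∀ (m : ℕ) (v : ℕ → V) (c : ℕ → ZMod 3), F.X.NB m v c →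
          v 0 = F.X.τ i w → v m = w' → (0 < m → c 0 ≠ i) →
          ∃ (v : ℕ → V) (c : ℕ → ZMod 3), F.X.NB (m + 1) v c ∧ v 0 = w ∧ v (m + 1) = w' ∧
            (0 < m + 1 → c 0 = i) := by
        intro m v c hnb hv0 hvm hc
        refine ⟨fun n => Nat.casesOn n w v, fun n => Nat.casesOn n i c, ⟨?_, ?_⟩, rfl, hvm,
          fun _ => rfl⟩
        · intro n hn
          cases n with
          | zero => exact hv0
          | succ n => exact hnb.1 n (by omega)
        · intro n hn
          cases n with
          | zero => exact hc (by omega)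
          | succ n => exact hnb.2 n (by omega)
      have hx0 := hx 0
      rw [h0] at hx0
      obtain ⟨hx1, hx2⟩ := hx0
      by_cases hcase : F.nb (Sum.inl w) i = Sum.inl (F.X.τ i w)
      · have hr : F.rev (Sum.inl w) i = i := by
          by_cases hi : i = 0
          · subst hi
            apply F.rev_nsp
            intro b hb
            rw [F.nb_sp hb] at hcase
            simp at hcase
          · exact F.rev_ne hi
        obtain ⟨m, hm, hm0, v, c, hnb, hv0, hvm, hc⟩ := ih (n - 1) (by omega) (fun k => x (k + 1))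
          (fun m => hx (m + 1)) (fun m => hl (m + 1)) (F.X.τ i w) w' (x 1).2
          (Prod.ext (by rw [zero_add, ← hcase]; exact hx1) rfl)
          (show (x (n - 1 + 1)).1 = Sum.inl w' by rw [show n - 1 + 1 = n by omega]; exact hn)
        have hne : (x 1).2 ≠ i := by
          rw [← hr]; exact hx2
        obtain ⟨v', c', h1, h2, h3, h4⟩ := prepend m v c hnb hv0 hvm
          (fun h => by rw [hc h]; exact hne)
        exact ⟨m + 1, by omega, fun _ => by omega, v', c', h1, h2, h3, h4⟩
      · -- passing a new vertex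
        have hi : i = 0 := by
          by_contra hi
          exact hcase (F.nb_ne hi)
        subst hi
        have hs : ∃ b, F.Sp b w := by
          by_contra hs
          exact hcase (F.nb_nsp (not_exists.1 hs))
        obtain ⟨b, hb⟩ := hs
        have hx1' : (x 1).1 = Sum.inr b := by rw [← F.nb_sp hb]; exact hx1
        have hn2 : 2 ≤ n := by
          by_contra h
          have : n = 1 := by omega
          subst this
          rw [hx1'] at hn
          simp at hn
        have hj0 : (x 1).2 ≠ 0 := by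
          intro h
          exact hl 1 ⟨b, Prod.ext hx1' h⟩
        have h12 := hx 1
        have key : F.nb (x 1).1 (x 1).2 = Sum.inl (F.X.τ 0 w) := by
          rw [hx1']
          have hx2' : (x 1).2 ≠ F.rev (Sum.inl w) 0 := hx2
          rcases hb with rfl | rfl
          · rw [F.rev_pt] at hx2'
            rcases three (x 1).2 with h | h | h
            · exact absurd h hj0
            · rw [h, F.nb_r1]; rfl
            · exact absurd h hx2'
          · rw [F.rev_a] at hx2'
            rcases three (x 1).2 with h | h | h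
            · exact absurd h hj0
            · exact absurd h hx2'
            · rw [h, F.nb_r2, F.τa]
        have hx2' : (x 2).1 = Sum.inl (F.X.τ 0 w) := by rw [← key]; exact h12.1
        have hx22 : (x 2).2 ≠ 0 := by
          have := h12.2
          rw [hx1', F.rev_r] at this
          exact this
        obtain ⟨m, hm, hm0, v, c, hnb, hv0, hvm, hc⟩ := ih (n - 2) (by omega) (fun k => x (k + 2))
          (fun m => hx (m + 2)) (fun m => hl (m + 2)) (F.X.τ 0 w) w' (x 2).2
          (Prod.ext hx2' rfl)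
          (show (x (n - 2 + 2)).1 = Sum.inl w' by rw [show n - 2 + 2 = n by omega]; exact hn)
        obtain ⟨v', c', h1, h2, h3, h4⟩ := prepend m v c hnb hv0 hvm
          (fun h => by rw [hc h]; exact hx22)
        exact ⟨m + 1, by omega, fun _ => by omega, v', c', h1, h2, h3, h4⟩

/-- Periodic non-backtracking sequences which avoid the long edge have period at least `k`. -/
theorem Far.period_of_avoid {x : ℕ → (V ⊕ Bool) × ZMod 3} (hx : ∀ m, F.Nx (x m) (x (m + 1)))
    (hl : ∀ m, ¬ IsLong (x m)) {t : ℕ} (ht : 0 < t) (hp : ∀ m, x (m + t) = x m) : F.k ≤ t := by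
  have main : ∀ (x : ℕ → (V ⊕ Bool) × ZMod 3), (∀ m, F.Nx (x m) (x (m + 1))) →
      (∀ m, ¬ IsLong (x m)) → (∀ m, x (m + t) = x m) → (∃ w, (x 0).1 = Sum.inl w) → F.k ≤ t := by
    intro x hx hl hp ⟨w, hw⟩
    obtain ⟨m, hm, hm0, v, c, hnb, hv0, hvm, hc⟩ := F.extract t x hx hl w w (x 0).2
      (Prod.ext hw rfl) (by have := hp 0; rw [zero_add] at this; rw [this]; exact hw)
    exact (F.good.girth m v c (hm0 ht) hnb (by rw [hv0, hvm])).trans hm
  rcases h : (x 0).1 with w | b
  · exact main x hx hl hp ⟨w, h⟩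
  · apply main (fun m => x (m + 1)) (fun m => hx (m + 1)) (fun m => hl (m + 1))
      (fun m => show x (m + t + 1) = x (m + 1) by
          rw [show m + t + 1 = m + 1 + t by omega]; exact hp (m + 1))
    have h0 : (x 0).2 ≠ 0 := fun h' => hl 0 ⟨b, Prod.ext h h'⟩
    have h1 := (hx 0).1
    rw [h] at h1
    rcases three (x 0).2 with h2 | h2 | h2
    · exact absurd h2 h0
    · rw [h2, F.nb_r1] at h1
      exact ⟨_, h1⟩
    · rw [h2, F.nb_r2] at h1
      exact ⟨_, h1⟩

/-- The potential on the vertices of the new graph. -/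
def Far.pot : V ⊕ Bool → ℤ
  | Sum.inl w => F.h w
  | Sum.inr b => F.h (F.pt b)

theorem Far.pot_step (p : (V ⊕ Bool) × ZMod 3) (h : ¬ IsLong p) :
    F.pot (F.nb p.1 p.2) ≤ F.pot p.1 + 3 ∧ F.pot p.1 ≤ F.pot (F.nb p.1 p.2) + 3 := by
  rcases p with ⟨w | b, i⟩
  · by_cases hi : i = 0
    · subst hi
      by_cases hs : ∃ b, F.Sp b w
      · obtain ⟨b, hs⟩ := hs
        simp only [F.nb_sp hs, Far.pot]
        rcases hs with rfl | rfl
        · omega
        · exact ⟨F.lip' 0 (F.pt b), F.lip 0 (F.pt b)⟩
      · simp only [F.nb_nsp (not_exists.1 hs), Far.pot]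
        exact ⟨F.lip 0 w, F.lip' 0 w⟩
    · simp only [F.nb_ne hi, Far.pot]
      exact ⟨F.lip i w, F.lip' i w⟩
  · rcases three i with rfl | rfl | rfl
    · exact absurd ⟨b, rfl⟩ h
    · simp only [F.nb_r1, Far.pot]
      exact ⟨F.lip 0 (F.pt b), F.lip' 0 (F.pt b)⟩
    · simp only [F.nb_r2, Far.pot]
      omega

theorem Far.pot_walk {x : ℕ → (V ⊕ Bool) × ZMod 3} (hx : ∀ m, F.Nx (x m) (x (m + 1)))
    (n : ℕ) (hl : ∀ m < n, ¬ IsLong (x m)) :
    F.pot (x n).1 ≤ F.pot (x 0).1 + 3 * n ∧ F.pot (x 0).1 ≤ F.pot (x n).1 + 3 * n := by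
  induction n with
  | zero => simp
  | succ n ih =>
    have h1 := ih (fun m hm => hl m (by omega))
    have h2 := F.pot_step (x n) (hl n (by omega))
    rw [← (hx n).1] at h2
    push_cast
    omega

/-- Periodic non-backtracking sequences which use the long edge once have a long period. -/
theorem Far.period_of_long {x : ℕ → (V ⊕ Bool) × ZMod 3} (hx : ∀ m, F.Nx (x m) (x (m + 1)))
    {b : Bool} (h0 : x 0 = (Sum.inr b, 0)) {t : ℕ} (ht : 0 < t) (hp : x t = x 0)
    (hl : ∀ m, 0 < m → m < t → ¬ IsLong (x m)) : F.D + 3 ≤ 3 * t := by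
  have h1 : (x 1).1 = Sum.inr (!b) := by rw [(hx 0).1, h0, F.nb_r0]
  have h2 := F.pot_walk (x := fun m => x (m + 1)) (fun m => hx (m + 1)) (t - 1)
    (fun m hm => hl (m + 1) (by omega) (by omega))
  simp only [zero_add] at h2
  rw [show t - 1 + 1 = t by omega, hp, h0, h1] at h2
  simp only [Far.pot] at h2
  have h3 := F.far
  have h4 : ((t - 1 : ℕ) : ℤ) = t - 1 := by omega
  rw [h4] at h2
  zify
  cases b
  · simp only [Bool.not_false] at h2
    omega
  · simp only [Bool.not_true] at h2
    omega

end Pool.Agent.Helper74_SE
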